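import Mathlib

/-!
# Nondeterministic one-tape machines and crossing sequences

The table of the machine may depend on the place, the tape alphabet is arbitrary. The main lemma
(`paste`): two accepting computations with the same crossing sequence at a boundary `a` can be cut
there and put together, and the crossing sequences at the boundaries to the right of `a` are those
of the second computation.
-/

set_option autoImplicit false

namespace Pool.Agent.U864.OT

/-- A nondeterministic one-tape machine with `q` states for words over `A`. The tape has the places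
`…, -1, 0, 1, …`; place `i` carries the symbol `inp i a` if `i` is a place of the input and `a` is
the letter there, and `out i` otherwise. `step p s g g' s' p'`: in the state `s` on the place `p`
which carries `g` the machine may write `g'`, change to the state `s'` and go to the place `p'`. -/
structure Machine (A : Type) (q : ℕ) where
  Γ : Type
  inp : ℤ → A → Γ
  out : ℤ → Γ
  start : Fin q
  acc : Set (Fin q)
  step : ℤ → Fin q → Γ → Γ → Fin q → ℤ → Prop

variable {A : Type} {q : ℕ}

/-- `Run M s p t L t₁`: from the state `s`, the place `p` and the tape `t` the machine can reach an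
accepting state with the tape `t₁`, and `L` lists the states and places after each step. The head
moves by at most one place in each step. -/
inductive Run (M : Machine A q) :
    Fin q → ℤ → (ℤ → M.Γ) → List (Fin q × ℤ) → (ℤ → M.Γ) → Prop
  | halt (s : Fin q) (p : ℤ) (t : ℤ → M.Γ) : s ∈ M.acc → Run M s p t [] t
  | move (s : Fin q) (p : ℤ) (t : ℤ → M.Γ) (g : M.Γ) (s' : Fin q) (p' : ℤ)
      (L : List (Fin q × ℤ)) (t₁ : ℤ → M.Γ) : M.step p s (t p) g s' p' → |p' - p| ≤ 1 →
      Run M s' p' (Function.update t p g) L t₁ → Run M s p t ((s', p') :: L) t₁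

/-- the letter of the word `w` at the place `i`, if there is one -/
def letter (w : List A) (i : ℤ) : Option A := if 0 ≤ i then w[i.toNat]? else none

/-- the tape at the beginning -/
def tape (M : Machine A q) (w : List A) : ℤ → M.Γ := fun i =>
  (letter w i).elim (M.out i) (M.inp i)

/-- the machine accepts the word `w` in at most `T` steps -/
def AcceptsIn (M : Machine A q) (w : List A) (T : ℕ) : Prop :=
  ∃ (L : List (Fin q × ℤ)) (t₁ : ℤ → M.Γ), L.length ≤ T ∧ Run M M.start 0 (tape M w) L t₁

/-- the machine accepts the word `w` -/
def Accepts (M : Machine A q) (w : List A) : Prop := ∃ T, AcceptsIn M w T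

/-- the head passes the boundary between `a - 1` and `a` -/
def Crosses (a p p' : ℤ) : Prop := (p < a ∧ a ≤ p') ∨ (p' < a ∧ a ≤ p)

instance (a p p' : ℤ) : Decidable (Crosses a p p') := by unfold Crosses; infer_instance

/-- the crossing sequence at the boundary `a` -/
def cs (a : ℤ) : ℤ → List (Fin q × ℤ) → List (Fin q)
  | _, [] => []
  | p, (s', p') :: L => if Crosses a p p' then s' :: cs a p' L else cs a p' L

@[simp] theorem cs_nil (a p : ℤ) : cs a p ([] : List (Fin q × ℤ)) = [] := rfl

theorem cs_cons (a p : ℤ) (s' : Fin q) (p' : ℤ) (L : List (Fin q × ℤ)) :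
    cs a p ((s', p') :: L) = if Crosses a p p' then s' :: cs a p' L else cs a p' L := rfl

theorem cs_pos {a p p' : ℤ} (h : Crosses a p p') (s' : Fin q) (L : List (Fin q × ℤ)) :
    cs a p ((s', p') :: L) = s' :: cs a p' L := by rw [cs_cons, if_pos h]

theorem cs_neg {a p p' : ℤ} (h : ¬ Crosses a p p') (s' : Fin q) (L : List (Fin q × ℤ)) :
    cs a p ((s', p') :: L) = cs a p' L := by rw [cs_cons, if_neg h]

/-- left of `a` the tape `t`, from `a` on the tape `t'` -/
def mix {Γ : Type} (a : ℤ) (t t' : ℤ → Γ) : ℤ → Γ := fun i => if i < a then t i else t' i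

theorem mix_lt {Γ : Type} {a i : ℤ} (t t' : ℤ → Γ) (h : i < a) : mix a t t' i = t i := if_pos h

theorem mix_ge {Γ : Type} {a i : ℤ} (t t' : ℤ → Γ) (h : a ≤ i) : mix a t t' i = t' i :=
  if_neg (not_lt.2 h)

theorem mix_update_left {Γ : Type} {a p : ℤ} (t t' : ℤ → Γ) (g : Γ) (h : p < a) :
    mix a (Function.update t p g) t' = Function.update (mix a t t') p g := by
  funext i
  by_cases hi : i = p
  · subst hi; simp [mix, h]
  · simp [mix, Function.update_of_ne hi]

theorem mix_update_right {Γ : Type} {a p : ℤ} (t t' : ℤ → Γ) (g : Γ) (h : a ≤ p) :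
    mix a t (Function.update t' p g) = Function.update (mix a t t') p g := by
  funext i
  by_cases hi : i = p
  · subst hi; simp [mix, not_lt.2 h]
  · simp [mix, Function.update_of_ne hi]

theorem mix_update_left' {Γ : Type} {a p : ℤ} (t t' : ℤ → Γ) (g : Γ) (h : p < a) :
    mix a t (Function.update t' p g) = mix a t t' := by
  funext i
  by_cases hi : i = p
  · subst hi; simp [mix, h]
  · simp [mix, Function.update_of_ne hi]

theorem mix_update_right' {Γ : Type} {a p : ℤ} (t t' : ℤ → Γ) (g : Γ) (h : a ≤ p) :
    mix a (Function.update t p g) t' = mix a t t' := by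
  funext i
  by_cases hi : i = p
  · subst hi; simp [mix, not_lt.2 h]
  · simp [mix, Function.update_of_ne hi]

/-- cutting two computations at a boundary where they have the same crossing sequence -/
theorem paste_aux (M : Machine A q) (a : ℤ) : ∀ (n : ℕ) (s : Fin q) (p : ℤ) (t : ℤ → M.Γ)
    (L : List (Fin q × ℤ)) (t₁ : ℤ → M.Γ) (s' : Fin q) (p' : ℤ) (t' : ℤ → M.Γ)
    (L' : List (Fin q × ℤ)) (t₁' : ℤ → M.Γ), L.length + L'.length ≤ n → Run M s p t L t₁ →
    Run M s' p' t' L' t₁' → cs a p L = cs a p' L' →
    ((p < a → p' < a → ∃ K, Run M s p (mix a t t') K (mix a t₁ t₁') ∧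
      (∀ b, a < b → cs b p K = cs b p' L') ∧ ∀ b, b ≤ a → cs b p K = cs b p L) ∧
    (a ≤ p → a ≤ p' → ∃ K, Run M s' p' (mix a t t') K (mix a t₁ t₁') ∧
      (∀ b, a ≤ b → cs b p' K = cs b p' L') ∧ ∀ b, b < a → cs b p' K = cs b p L)) := by
  intro n
  induction n with
  | zero =>
    intro s p t L t₁ s' p' t' L' t₁' hn h h' hc
    have h1 : L = [] := List.length_eq_zero_iff.1 (by omega)
    have h2 : L' = [] := List.length_eq_zero_iff.1 (by omega)
    subst h1 h2
    cases h with
    | halt _ _ _ hs =>
      cases h' with
      | halt _ _ _ hs' =>
        exact ⟨fun _ _ => ⟨[], .halt _ _ _ hs, fun _ _ => rfl, fun _ _ => rfl⟩,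
          fun _ _ => ⟨[], .halt _ _ _ hs', fun _ _ => rfl, fun _ _ => rfl⟩⟩
  | succ n ih =>
    intro s p t L t₁ s' p' t' L' t₁' hn h h' hc
    constructor
    · -- both heads are on the left
      intro hp hp'
      cases h' with
      | move _ _ _ g' s₁' p₁' L₁' _ hst' hd' hr' =>
        by_cases hx' : a ≤ p₁'
        · -- the second computation crosses the boundary
          have hcr' : Crosses a p' p₁' := Or.inl ⟨hp', hx'⟩
          rw [cs_pos hcr'] at hc
          cases h with
          | halt _ _ _ hs => simp at hc
          | move _ _ _ g s₁ p₁ L₁ _ hst hd hr =>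
            by_cases hx : a ≤ p₁
            · have hcr : Crosses a p p₁ := Or.inl ⟨hp, hx⟩
              rw [cs_pos hcr] at hc
              injection hc with hc1 hc2
              subst hc1
              have e1 : p₁ = a := by rw [abs_le] at hd; omega
              have e2 : p₁' = a := by rw [abs_le] at hd'; omega
              obtain ⟨K, hK1, hK2, hK3⟩ := (ih _ _ _ _ _ _ _ _ _ _ (by
                simp only [List.length_cons] at hn; omega) hr hr' hc2).2 hx hx'
              rw [mix_update_left' _ _ _ hp', mix_update_left _ _ _ hp] at hK1
              refine ⟨(s₁, p₁') :: K, .move _ _ _ g _ _ _ _ ?_ ?_ hK1, ?_, ?_⟩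
              · rw [mix_lt _ _ hp, e2, ← e1]; exact hst
              · rw [e2, ← e1]; exact hd
              · intro b hb
                have n1 : ¬ Crosses b p p₁' := by rintro (h | h) <;> omega
                have n2 : ¬ Crosses b p' p₁' := by rintro (h | h) <;> omega
                rw [cs_neg n1, cs_neg n2]
                exact hK2 b hb.le
              · intro b hb
                rw [cs_cons, cs_cons, e1, e2]
                rcases eq_or_lt_of_le hb with rfl | hb
                · have := hK2 b le_rfl
                  rw [e2] at this
                  rw [this]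
                  rw [e1, e2] at hc2
                  rw [hc2]
                · have := hK3 b hb
                  rw [e2, e1] at this
                  rw [this]
            · -- the first computation stays on the left
              have hcr : ¬ Crosses a p p₁ := by rintro (h | h) <;> omega
              rw [cs_neg hcr] at hc
              have hc' : cs a p₁ L₁ = cs a p' ((s₁', p₁') :: L₁') := by rw [cs_pos hcr', hc]
              obtain ⟨K, hK1, hK2, hK3⟩ := (ih _ _ _ _ _ _ _ _ _ _ (by
                simp only [List.length_cons] at hn ⊢; omega) hr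
                (Run.move _ _ _ g' s₁' p₁' L₁' _ hst' hd' hr') hc').1 (by omega) hp'
              rw [mix_update_left _ _ _ hp] at hK1
              refine ⟨(s₁, p₁) :: K, .move _ _ _ g _ _ _ _ ?_ hd hK1, ?_, ?_⟩
              · rw [mix_lt _ _ hp]; exact hst
              · intro b hb
                have n1 : ¬ Crosses b p p₁ := by rintro (h | h) <;> omega
                rw [cs_neg n1]
                exact hK2 b hb
              · intro b hb
                rw [cs_cons, cs_cons, hK3 b hb]
        · -- the second computation stays on the left
          have hcr' : ¬ Crosses a p' p₁' := by rintro (h | h) <;> omega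
          rw [cs_neg hcr'] at hc
          obtain ⟨K, hK1, hK2, hK3⟩ := (ih _ _ _ _ _ _ _ _ _ _ (by
            simp only [List.length_cons] at hn; omega) h hr' hc).1 hp (by omega)
          rw [mix_update_left' _ _ _ hp'] at hK1
          refine ⟨K, hK1, ?_, hK3⟩
          intro b hb
          have n1 : ¬ Crosses b p' p₁' := by rintro (h | h) <;> omega
          rw [cs_neg n1]
          exact hK2 b hb
      | halt _ _ _ hs' =>
        -- the second computation has ended
        cases h with
        | halt _ _ _ hs => exact ⟨[], .halt _ _ _ hs, fun _ _ => rfl, fun _ _ => rfl⟩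
        | move _ _ _ g s₁ p₁ L₁ _ hst hd hr =>
          have hx : ¬ a ≤ p₁ := by
            intro hx
            rw [cs_pos (Or.inl ⟨hp, hx⟩)] at hc
            simp at hc
          have hcr : ¬ Crosses a p p₁ := by rintro (h | h) <;> omega
          rw [cs_neg hcr] at hc
          obtain ⟨K, hK1, hK2, hK3⟩ := (ih _ _ _ _ _ _ _ _ _ _ (by
            simp only [List.length_cons] at hn ⊢; omega) hr (Run.halt _ _ t' hs') hc).1
              (by omega) hp'
          rw [mix_update_left _ _ _ hp] at hK1
          refine ⟨(s₁, p₁) :: K, .move _ _ _ g _ _ _ _ ?_ hd hK1, ?_, ?_⟩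
          · rw [mix_lt _ _ hp]; exact hst
          · intro b hb
            have n1 : ¬ Crosses b p p₁ := by rintro (h | h) <;> omega
            rw [cs_neg n1]
            exact hK2 b hb
          · intro b hb
            rw [cs_cons, cs_cons, hK3 b hb]
    · -- both heads are on the right
      intro hp hp'
      cases h with
      | move _ _ _ g s₁ p₁ L₁ _ hst hd hr =>
        by_cases hx : p₁ < a
        · -- the first computation crosses the boundary
          have hcr : Crosses a p p₁ := Or.inr ⟨hx, hp⟩
          rw [cs_pos hcr] at hc
          cases h' with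
          | halt _ _ _ hs => simp at hc
          | move _ _ _ g' s₁' p₁' L₁' _ hst' hd' hr' =>
            by_cases hx' : p₁' < a
            · have hcr' : Crosses a p' p₁' := Or.inr ⟨hx', hp'⟩
              rw [cs_pos hcr'] at hc
              injection hc with hc1 hc2
              subst hc1
              have e0 : p = a := by rw [abs_le] at hd; omega
              have e0' : p' = a := by rw [abs_le] at hd'; omega
              have e1 : p₁ = a - 1 := by rw [abs_le] at hd; omega
              have e2 : p₁' = a - 1 := by rw [abs_le] at hd'; omega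
              obtain ⟨K, hK1, hK2, hK3⟩ := (ih _ _ _ _ _ _ _ _ _ _ (by
                simp only [List.length_cons] at hn; omega) hr hr' hc2).1 hx hx'
              rw [mix_update_right _ _ _ hp', mix_update_right' _ _ _ hp] at hK1
              refine ⟨(s₁, p₁) :: K, .move _ _ _ g' _ _ _ _ ?_ ?_ hK1, ?_, ?_⟩
              · rw [mix_ge _ _ hp', e1, ← e2]; exact hst'
              · rw [e1, ← e2]; exact hd'
              · intro b hb
                rw [cs_cons, cs_cons, e1, e2]
                rcases eq_or_lt_of_le hb with rfl | hb
                · have := hK3 a le_rfl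
                  rw [e1] at this
                  rw [e1, e2] at hc2
                  rw [this, hc2]
                · have := hK2 b hb
                  rw [e1, e2] at this
                  rw [this]
              · intro b hb
                have n1 : ¬ Crosses b p' p₁ := by rintro (h | h) <;> omega
                have n2 : ¬ Crosses b p p₁ := by rintro (h | h) <;> omega
                rw [cs_neg n1, cs_neg n2]
                exact hK3 b hb.le
            · -- the second computation stays on the right
              have hcr' : ¬ Crosses a p' p₁' := by rintro (h | h) <;> omega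
              rw [cs_neg hcr'] at hc
              have hc' : cs a p ((s₁, p₁) :: L₁) = cs a p₁' L₁' := by rw [cs_pos hcr, hc]
              obtain ⟨K, hK1, hK2, hK3⟩ := (ih _ _ _ _ _ _ _ _ _ _ (by
                simp only [List.length_cons] at hn ⊢; omega)
                (Run.move _ _ _ g s₁ p₁ L₁ _ hst hd hr) hr' hc').2 hp (by omega)
              rw [mix_update_right _ _ _ hp'] at hK1
              refine ⟨(s₁', p₁') :: K, .move _ _ _ g' _ _ _ _ ?_ hd' hK1, ?_, ?_⟩
              · rw [mix_ge _ _ hp']; exact hst'
              · intro b hb
                rw [cs_cons, cs_cons, hK2 b hb]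
              · intro b hb
                have n1 : ¬ Crosses b p' p₁' := by rintro (h | h) <;> omega
                rw [cs_neg n1]
                exact hK3 b hb
        · -- the first computation stays on the right
          have hcr : ¬ Crosses a p p₁ := by rintro (h | h) <;> omega
          rw [cs_neg hcr] at hc
          obtain ⟨K, hK1, hK2, hK3⟩ := (ih _ _ _ _ _ _ _ _ _ _ (by
            simp only [List.length_cons] at hn; omega) hr h' hc).2 (by omega) hp'
          rw [mix_update_right' _ _ _ hp] at hK1
          refine ⟨K, hK1, hK2, ?_⟩
          intro b hb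
          have n1 : ¬ Crosses b p p₁ := by rintro (h | h) <;> omega
          rw [cs_neg n1]
          exact hK3 b hb
      | halt _ _ _ hs =>
        cases h' with
        | halt _ _ _ hs' => exact ⟨[], .halt _ _ _ hs', fun _ _ => rfl, fun _ _ => rfl⟩
        | move _ _ _ g' s₁' p₁' L₁' _ hst' hd' hr' =>
          have hx' : ¬ p₁' < a := by
            intro hx
            rw [cs_pos (Or.inr ⟨hx, hp'⟩)] at hc
            simp at hc
          have hcr' : ¬ Crosses a p' p₁' := by rintro (h | h) <;> omega
          rw [cs_neg hcr'] at hc
          obtain ⟨K, hK1, hK2, hK3⟩ := (ih _ _ _ _ _ _ _ _ _ _ (by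
            simp only [List.length_cons] at hn ⊢; omega) (Run.halt _ _ t hs) hr' hc).2
              hp (by omega)
          rw [mix_update_right _ _ _ hp'] at hK1
          refine ⟨(s₁', p₁') :: K, .move _ _ _ g' _ _ _ _ ?_ hd' hK1, ?_, ?_⟩
          · rw [mix_ge _ _ hp']; exact hst'
          · intro b hb
            rw [cs_cons, cs_cons, hK2 b hb]
          · intro b hb
            have n1 : ¬ Crosses b p' p₁' := by rintro (h | h) <;> omega
            rw [cs_neg n1]
            exact hK3 b hb

/-- cutting two accepting computations at a boundary where they have the same crossing sequence -/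
theorem paste (M : Machine A q) (a : ℤ) {s : Fin q} {p : ℤ} {t t' t₁ t₁' : ℤ → M.Γ}
    {L L' : List (Fin q × ℤ)} (h : Run M s p t L t₁) (h' : Run M s p t' L' t₁')
    (hc : cs a p L = cs a p L') : ∃ K, Run M s p (mix a t t') K (mix a t₁ t₁') ∧
      (∀ b, a < b → cs b p K = cs b p L') ∧ (∀ b, b < a → cs b p K = cs b p L) ∧
      cs a p K = cs a p L := by
  rcases lt_or_ge p a with hp | hp
  · obtain ⟨K, h1, h2, h3⟩ := (paste_aux M a _ _ _ _ _ _ _ _ _ _ _ le_rfl h h' hc).1 hp hp
    exact ⟨K, h1, h2, fun b hb => h3 b hb.le, h3 a le_rfl⟩
  · obtain ⟨K, h1, h2, h3⟩ := (paste_aux M a _ _ _ _ _ _ _ _ _ _ _ le_rfl h h' hc).2 hp hp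
    exact ⟨K, h1, fun b hb => h2 b hb.le, h3, (h2 a le_rfl).trans hc.symm⟩

/-- each step passes at most one boundary -/
theorem sum_cs (M : Machine A q) (F : Finset ℤ) {s : Fin q} {p : ℤ} {t t₁ : ℤ → M.Γ}
    {L : List (Fin q × ℤ)} (h : Run M s p t L t₁) : ∑ a ∈ F, (cs a p L).length ≤ L.length := by
  induction h with
  | halt _ _ _ _ => simp
  | move s p t g s' p' L _ _ hd _ ih =>
    have h1 : ∀ a ∈ F, (cs a p ((s', p') :: L)).length =
        (cs a p' L).length + if Crosses a p p' then 1 else 0 := by
      intro a _
      rw [cs_cons]
      split_ifs <;> simp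
    rw [Finset.sum_congr rfl h1, Finset.sum_add_distrib, List.length_cons]
    refine Nat.add_le_add ih ?_
    rw [Finset.sum_boole, Nat.cast_id]
    rw [Finset.card_le_one]
    intro a ha b hb
    rw [Finset.mem_filter] at ha hb
    have h2 := ha.2
    have h3 := hb.2
    rw [abs_le] at hd
    rcases h2 with h2 | h2 <;> rcases h3 with h3 | h3 <;> omega

end Pool.Agent.U864.OT
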