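import Pool.Agent.U864.OT.Num
import Pool.Agent.TH454.BW.Obdd
import Pool.Agent.TH454.BW.Asy

/-!
# Relations between strings decided by machines
-/

set_option autoImplicit false

namespace Pool.Agent.U864.OT

open Pool.Agent.TH454.BW Pool.Agent.H607R2.BW

theorem bits_injective {m : ℕ} (ord : Fin (2 * m) ≃ Fin 2 × Fin m) :
    Function.Injective (bits ord) := by
  intro x y h
  unfold bits at h
  have h1 := List.ofFn_injective h
  funext j t
  have h2 := congrFun h1 (ord.symm (j, t))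
  simpa using h2

theorem word_injective {ι : Type} {m : ℕ} : Function.Injective (word (ι := ι) (m := m)) := by
  intro x y h
  unfold word at h
  have h1 := List.ofFn_injective h
  funext j t
  exact congrFun (congrFun h1 t) j

/-- machines which read the bits of two strings in some order give decision diagrams -/
theorem nobdd_of_machine {m q T B l : ℕ} (M : Machine Bool q)
    (ord : Fin (2 * m) ≃ Fin 2 × Fin m) (F : ℤ → Option Bool → M.Γ → Prop)
    {R : (Fin 2 → Str m) → Prop} (hB : T < B * (l + 1))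
    (h1 : ∀ x, R x → Good' M F (bits ord x) T)
    (h2 : ∀ x T', Good' M F (bits ord x) T' → R x) :
    HasNObdd (((q + 1) ^ l + 1) ^ 2 * 2 ^ (B + 1)) R := by
  obtain ⟨σ, Tr, s₀, acc, hT, hw⟩ := trellis_fits M F (by simp) hB (N := 2 * m)
    (R := fun w => ∃ x, bits ord x = w ∧ R x)
    (by rintro w - ⟨x, rfl, hx⟩; exact h1 x hx)
    (by
      intro w T' hw h
      refine ⟨un ord w, bits_un ord w hw, h2 _ T' ?_⟩
      rwa [bits_un ord w hw])
  refine ⟨ord, σ, Tr, s₀, acc, by simpa using hT, fun x => ?_⟩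
  rw [← hw (bits ord x) (by simp [bits])]
  constructor
  · intro h
    exact ⟨x, rfl, h⟩
  · rintro ⟨y, hy, h⟩
    rwa [← bits_injective ord hy]

/-- machines which read the letters of strings in parallel give trellises -/
theorem trellis_of_machine {ι : Type} [Fintype ι] [Nonempty ι] {m q T B l : ℕ}
    (M : Machine (ι → Bool) q) (F : ℤ → Option (ι → Bool) → M.Γ → Prop)
    {R : (ι → Str m) → Prop} (hB : T < B * (l + 1))
    (h1 : ∀ x, R x → Good' M F (word x) T)
    (h2 : ∀ x T', Good' M F (word x) T' → R x) :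
    HasTrellis (((q + 1) ^ l + 1) ^ 2 * (2 ^ Fintype.card ι) ^ (B + 1)) R := by
  classical
  have hc : Fintype.card (ι → Bool) = 2 ^ Fintype.card ι := by simp
  have hex : ∀ w : List (ι → Bool), w.length = m → ∃ x : ι → Str m, word x = w := by
    intro w hw
    subst hw
    refine ⟨fun j t => w.get t j, ?_⟩
    unfold word
    exact List.ofFn_get w
  obtain ⟨σ, Tr, s₀, acc, hT, hw⟩ := trellis_fits M F (by
      rw [hc]
      exact Nat.le_self_pow Fintype.card_ne_zero 2) hB (N := m)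
    (R := fun w => ∃ x, word x = w ∧ R x)
    (by rintro w - ⟨x, rfl, hx⟩; exact h1 x hx)
    (by
      intro w T' hw h
      obtain ⟨x, rfl⟩ := hex w hw
      exact ⟨x, rfl, h2 _ T' h⟩)
  refine ⟨σ, Tr, s₀, acc, by rw [hc] at hT; exact hT, fun x => ?_⟩
  rw [← hw (word x) (by simp [word])]
  constructor
  · intro h
    exact ⟨x, rfl, h⟩
  · rintro ⟨y, hy, h⟩
    rwa [← word_injective hy]

/-- the form for machines with `T log₂ (q + 1) ≤ δ m²` -/
theorem small_product {r : ℕ} (hr : 1 ≤ r) {γ δ : ℝ} (hγ : 0 < γ) (hδ : δ < γ ^ 2 / (8 * r))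
    (C : ℕ) {η : ℝ} (hη : 0 < η) :
    ∃ m₀ : ℕ, ∀ m q T : ℕ, m₀ ≤ m → 1 ≤ q →
      (T : ℝ) * Real.logb 2 (q + 1) ≤ δ * (m : ℝ) ^ 2 →
      ∃ B l : ℕ, T < B * (l + 1) ∧
        (C : ℝ) * ((((q + 1) ^ l + 1) ^ 2 * (2 ^ r) ^ (B + 1) : ℕ) * m * 2 ^ m) ≤
          η * ((2 : ℝ) ^ m) ^ (1 + γ) := by
  have hr0 : (0 : ℝ) < r := by exact_mod_cast hr
  -- a smaller exponent
  obtain ⟨γ', h1, h2, h3⟩ : ∃ γ' : ℝ, 0 < γ' ∧ γ' < γ ∧ δ < γ' ^ 2 / (8 * r) := by
    have hc : Continuous fun x : ℝ => x ^ 2 / (8 * r) := by fun_prop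
    have h4 : ∀ᶠ x in nhds γ, δ < x ^ 2 / (8 * r) := hc.continuousAt.eventually_const_lt hδ
    obtain ⟨ε, hε, h5⟩ := Metric.eventually_nhds_iff.1 h4
    refine ⟨max (γ / 2) (γ - ε / 2), lt_max_of_lt_left (by linarith),
      max_lt (by linarith) (by linarith), h5 ?_⟩
    rw [Real.dist_eq, abs_sub_comm, abs_of_nonneg (by
      have : max (γ / 2) (γ - ε / 2) ≤ γ := max_le (by linarith) (by linarith)
      linarith)]
    have : γ - ε / 2 ≤ max (γ / 2) (γ - ε / 2) := le_max_right _ _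
    linarith
  obtain ⟨m₁, hm₁⟩ := choose_params hr h1 h3
  obtain ⟨m₂, hm₂⟩ := asy C γ' γ η hη h2
  refine ⟨max m₁ m₂, fun m q T hm hq hT => ?_⟩
  obtain ⟨B, l, h6, h7⟩ := hm₁ m q T ((le_max_left _ _).trans hm) hq hT
  exact ⟨B, l, h6, hm₂ m _ ((le_max_right _ _).trans hm) h7⟩

end Pool.Agent.U864.OT
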