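import Pool.Agent.U864.OT.Union

/-!
# Hypergraphs covered by sets decided by one-tape machines
-/

set_option autoImplicit false

namespace Pool.Agent.U864.OT

open Finset Pool.Agent.N598.BT

variable {m : ℕ}

open Classical in
/-- The set `H` of sets of strings of `m` bits (the edges) is covered by `L` sets of `r`-tuples which
are decided by machines with `T log₂ (q + 1) ≤ δ m²`: every member of one of these sets which
consists of `r` different strings is an edge (with its vertices in some order), and every edge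
occurs in one of the sets (in some order). -/
def CoveredByMachines (L : ℕ) (δ : ℝ) (r : ℕ) (H : Finset (Finset (Fin m → Bool))) : Prop :=
  ∃ F : Fin L → Set (Fin r → Fin m → Bool), (∀ l, SmallMachine δ (F l)) ∧
    (∀ l, ∀ x ∈ F l, Function.Injective x → univ.image x ∈ H) ∧
      ∀ h ∈ H, ∃ l, ∃ x ∈ F l, univ.image x = h

theorem image_inst {r : ℕ} (D₁ D₂ : DecidableEq (Fin m → Bool)) (x : Fin r → Fin m → Bool) :
    @Finset.image _ _ D₁ x univ = @Finset.image _ _ D₂ x univ := by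
  rw [Subsingleton.elim D₁ D₂]

theorem biUnion_inst (D₁ D₂ : DecidableEq (Fin m → Bool)) (G : Finset (Finset (Fin m → Bool))) :
    @Finset.biUnion _ _ D₁ G id = @Finset.biUnion _ _ D₂ G id := by
  rw [Subsingleton.elim D₁ D₂]

theorem covered_of_machines {γ δ : ℝ} (hγ : 0 < γ) (hδ : δ < γ ^ 2 / 8) :
    ∃ m₀ : ℕ, ∀ (r m L : ℕ) (H : Finset (Finset (Fin m → Bool))), 1 ≤ r → m₀ ≤ m →
      CoveredByMachines L δ r H → Covered L ⌊((2 : ℝ) ^ m) ^ γ⌋₊ r H := by
  obtain ⟨m₀, -, hp⟩ := small_piece hγ hδ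
  refine ⟨m₀, fun r m L H hr hm hH => ?_⟩
  obtain ⟨F, h1, h2, h3⟩ := hH
  refine ⟨F, fun l => hp r m (F l) hr hm (h1 l), fun l x hx hi => ?_, fun h hh => ?_⟩
  · exact Eq.subst (motive := fun s => s ∈ H) (image_inst _ _ x) (h2 l x hx hi)
  · obtain ⟨l, x, hx, e⟩ := h3 h hh
    exact ⟨l, x, hx, (image_inst _ _ x).trans e⟩

theorem card_le_of_short {δ : ℝ} {r m L m₀ : ℕ} {H : Finset (Finset (Fin m → Bool))}
    (hH : CoveredByMachines L δ r H) (hm : m ≤ m₀) : H.card ≤ 2 ^ (r * m₀) * L := by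
  classical
  obtain ⟨F, -, -, h3⟩ := hH
  rcases Nat.eq_zero_or_pos L with hL | hL
  · subst hL
    have : H = ∅ := by
      rw [Finset.eq_empty_iff_forall_notMem]
      intro h hh
      obtain ⟨l, -⟩ := h3 h hh
      exact l.elim0
    simp [this]
  · have h4 : H ⊆ (univ : Finset (Fin r → Fin m → Bool)).image fun x => univ.image x := by
      intro h hh
      obtain ⟨l, x, -, hx⟩ := h3 h hh
      exact Finset.mem_image.2 ⟨x, Finset.mem_univ _, hx⟩
    have h5 := (Finset.card_le_card h4).trans Finset.card_image_le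
    have h6 : (univ : Finset (Fin r → Fin m → Bool)).card = 2 ^ (r * m) := by
      rw [Finset.card_univ]
      simp only [Fintype.card_fun, Fintype.card_fin, Fintype.card_bool]
      rw [← pow_mul, mul_comm]
    rw [h6] at h5
    calc H.card ≤ 2 ^ (r * m) := h5
      _ ≤ 2 ^ (r * m₀) := Nat.pow_le_pow_right (by norm_num) (Nat.mul_le_mul_left _ hm)
      _ ≤ 2 ^ (r * m₀) * L := Nat.le_mul_of_pos_right _ hL

/-- from networks to machines: a bound for hypergraphs -/
theorem transfer {r : ℕ} (hr : 1 ≤ r) {η δ₀ C₀ : ℝ} (hη : 0 < η) (hδ₀ : 0 < δ₀)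
    (P : ∀ m : ℕ, Finset (Finset (Fin m → Bool)) → Prop)
    (h : ∀ (m L w : ℕ) (H : Finset (Finset (Fin m → Bool))), (∀ h ∈ H, h.card = r) →
      Covered L w r H → (w : ℝ) ≤ ((2 : ℝ) ^ m) ^ δ₀ → P m H →
      (H.card : ℝ) ≤ C₀ * L * (2 : ℝ) ^ (r * (r + 2)) * ((2 : ℝ) ^ m) ^ (1 + η)) :
    ∃ δ : ℝ, 0 < δ ∧ ∃ C : ℝ, 0 < C ∧ ∀ (m L : ℕ) (H : Finset (Finset (Fin m → Bool))),
      (∀ h ∈ H, h.card = r) → CoveredByMachines L δ r H → P m H →
      (H.card : ℝ) ≤ C * L * ((2 : ℝ) ^ m) ^ (1 + η) := by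
  obtain ⟨m₀, hm₀⟩ := covered_of_machines (δ := δ₀ ^ 2 / 16) hδ₀ (by
    have : 0 < δ₀ ^ 2 := by positivity
    linarith)
  refine ⟨δ₀ ^ 2 / 16, by positivity, |C₀| * 2 ^ (r * (r + 2)) + 2 ^ (r * m₀), by positivity,
    fun m L H hH hc hP => ?_⟩
  have hL : (0 : ℝ) ≤ L := Nat.cast_nonneg L
  rcases le_total m₀ m with hm | hm
  · refine (h m L _ H hH (hm₀ r m L H hr hm hc) (Nat.floor_le (by positivity)) hP).trans ?_
    refine mul_le_mul_of_nonneg_right ?_ (by positivity)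
    calc C₀ * L * (2 : ℝ) ^ (r * (r + 2)) ≤ |C₀| * L * (2 : ℝ) ^ (r * (r + 2)) := by
          gcongr
          exact le_abs_self _
      _ = |C₀| * 2 ^ (r * (r + 2)) * L := by ring
      _ ≤ (|C₀| * 2 ^ (r * (r + 2)) + 2 ^ (r * m₀)) * L := by
          refine mul_le_mul_of_nonneg_right ?_ hL
          have : (0 : ℝ) < 2 ^ (r * m₀) := by positivity
          linarith
  · have h1 : (H.card : ℝ) ≤ 2 ^ (r * m₀) * L := by exact_mod_cast card_le_of_short hc hm
    have h2 : (1 : ℝ) ≤ ((2 : ℝ) ^ m) ^ (1 + η) :=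
      Real.one_le_rpow (one_le_pow₀ (by norm_num)) (by linarith)
    calc (H.card : ℝ) ≤ 2 ^ (r * m₀) * L := h1
      _ ≤ (|C₀| * 2 ^ (r * (r + 2)) + 2 ^ (r * m₀)) * L := by
          refine mul_le_mul_of_nonneg_right ?_ hL
          have : (0 : ℝ) ≤ |C₀| * 2 ^ (r * (r + 2)) := by positivity
          linarith
      _ ≤ _ := le_mul_of_one_le_right (by positivity) h2

end Pool.Agent.U864.OT
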