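import Pool.Agent.U864.OT.Num
import Pool.Agent.N598.BT.Two

/-!
# Relations decided by one-tape machines are given by tensor networks
-/

set_option autoImplicit false

namespace Pool.Agent.U864.OT

open Pool.Agent.TH454.BW Pool.Agent.TH700.PA Pool.Agent.N598.BT

open Classical in
/-- `1` if `P` holds and `0` otherwise -/
noncomputable def ind (P : Prop) : ℚ := if P then 1 else 0

theorem ind_nonneg (P : Prop) : 0 ≤ ind P := by
  unfold ind
  split_ifs <;> norm_num

theorem ind_ne_zero {P : Prop} : ind P ≠ 0 ↔ P := by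
  unfold ind
  split_ifs with h
  · simp [h]
  · simp [h]

section net

variable {σ A V : Type} (Tr : ℕ → Finset (σ × A × σ)) (s₀ : σ) (acc : Set σ) {w : ℕ}
  (code : ℕ → σ × A × σ → Fin w) (ord : ℕ → V)

/-- the network which counts the paths; the coordinates of the vectors are the branches -/
noncomputable def net : ℕ → Net ℚ V A (Fin w)
  | 0 => .leaf (ord 0) fun a i => ind (∃ b ∈ Tr 0, code 0 b = i ∧ b.1 = s₀ ∧ b.2.1 = a)
  | p + 1 => .node (net p) (.leaf (ord (p + 1)) fun a j =>
      ind (∃ b ∈ Tr (p + 1), code (p + 1) b = j ∧ b.2.1 = a)) fun i j k =>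
      ind (∃ b ∈ Tr p, ∃ b' ∈ Tr (p + 1), code p b = i ∧ code (p + 1) b' = j ∧ j = k ∧
        b.2.2 = b'.1)

theorem sum_ne_zero_iff {ι : Type} (s : Finset ι) (f : ι → ℚ) (hf : ∀ i ∈ s, 0 ≤ f i) :
    ∑ i ∈ s, f i ≠ 0 ↔ ∃ i ∈ s, f i ≠ 0 := by
  rw [Ne, Finset.sum_eq_zero_iff_of_nonneg hf]
  push Not
  rfl

theorem eval_net (hc : ∀ p, Set.InjOn (code p) (Tr p)) (x : V → A) : ∀ (p : ℕ) (k : Fin w),
    0 ≤ (net Tr s₀ code ord p).eval x k ∧ ((net Tr s₀ code ord p).eval x k ≠ 0 ↔
      ∃ b ∈ Tr p, code p b = k ∧ Path Tr 0 s₀ ((List.range p).map fun i => x (ord i)) b.1 ∧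
        b.2.1 = x (ord p)) := by
  intro p
  induction p with
  | zero =>
    intro k
    simp only [net, Net.eval]
    refine ⟨ind_nonneg _, ?_⟩
    rw [ind_ne_zero]
    refine exists_congr fun b => and_congr_right fun _ => and_congr_right fun _ =>
      and_congr_left fun _ => ?_
    exact eq_comm
  | succ p ih =>
    intro k
    simp only [net, Net.eval]
    have hnn : ∀ i j, 0 ≤ ind (∃ b ∈ Tr p, ∃ b' ∈ Tr (p + 1), code p b = i ∧
        code (p + 1) b' = j ∧ j = k ∧ b.2.2 = b'.1) *
        ((net Tr s₀ code ord p).eval x i *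
          ind (∃ b ∈ Tr (p + 1), code (p + 1) b = j ∧ b.2.1 = x (ord (p + 1)))) := by
      intro i j
      exact mul_nonneg (ind_nonneg _) (mul_nonneg (ih i).1 (ind_nonneg _))
    refine ⟨Finset.sum_nonneg fun i _ => Finset.sum_nonneg fun j _ => hnn i j, ?_⟩
    rw [sum_ne_zero_iff _ _ (fun i _ => Finset.sum_nonneg fun j _ => hnn i j)]
    have hL : (List.range (p + 1)).map (fun i => x (ord i)) =
        (List.range p).map (fun i => x (ord i)) ++ [x (ord p)] := by
      rw [List.range_succ, List.map_append]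
      rfl
    constructor
    · rintro ⟨i, -, hi⟩
      rw [sum_ne_zero_iff _ _ (fun j _ => hnn i j)] at hi
      obtain ⟨j, -, hj⟩ := hi
      have h1 := left_ne_zero_of_mul hj
      have h2 := left_ne_zero_of_mul (right_ne_zero_of_mul hj)
      have h3 := right_ne_zero_of_mul (right_ne_zero_of_mul hj)
      rw [ind_ne_zero] at h1 h3
      obtain ⟨b, hb, b', hb', e1, e2, e3, e4⟩ := h1
      obtain ⟨c, hc', e5, e6⟩ := h3
      obtain ⟨d, hd, e7, e8, e9⟩ := (ih i).2.1 h2
      have h4 : c = b' := hc (p + 1) hc' hb' (e5.trans e2.symm)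
      have h5 : d = b := hc p hd hb (e7.trans e1.symm)
      subst h4 h5
      refine ⟨c, hb', e2.trans e3, ?_, e6⟩
      rw [hL, path_append]
      refine ⟨d.1, e8, d.2.2, ?_, e4⟩
      rw [← e9]
      simpa using hb
    · rintro ⟨b', hb', e1, e2, e3⟩
      rw [hL, path_append] at e2
      obtain ⟨s₁, h1, s₂, h2, h3⟩ := e2
      have h2' : (s₁, x (ord p), s₂) ∈ Tr p := by simpa using h2
      refine ⟨code p (s₁, x (ord p), s₂), Finset.mem_univ _, ?_⟩
      rw [sum_ne_zero_iff _ _ (fun j _ => hnn _ j)]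
      refine ⟨k, Finset.mem_univ _, ?_⟩
      refine mul_ne_zero (ind_ne_zero.2 ⟨_, h2', b', hb', rfl, e1, rfl, h3⟩) (mul_ne_zero ?_ ?_)
      · exact (ih _).2.2 ⟨_, h2', rfl, h1, rfl⟩
      · exact ind_ne_zero.2 ⟨b', hb', e1, e3⟩

/-- the output vector -/
noncomputable def outv (p : ℕ) : Fin w → ℚ := fun k =>
  ind (∃ b ∈ Tr p, code p b = k ∧ b.2.2 ∈ acc)

theorem value_net (hc : ∀ p, Set.InjOn (code p) (Tr p)) (x : V → A) (p : ℕ) :
    (net Tr s₀ code ord p).value (outv Tr acc code p) x ≠ 0 ↔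
      ∃ s' ∈ acc, Path Tr 0 s₀ ((List.range (p + 1)).map fun i => x (ord i)) s' := by
  unfold Net.value outv
  have hL : (List.range (p + 1)).map (fun i => x (ord i)) =
      (List.range p).map (fun i => x (ord i)) ++ [x (ord p)] := by
    rw [List.range_succ, List.map_append]
    rfl
  rw [sum_ne_zero_iff _ _ (fun k _ => mul_nonneg (ind_nonneg _)
    (eval_net Tr s₀ code ord hc x p k).1)]
  constructor
  · rintro ⟨k, -, hk⟩
    have h1 := left_ne_zero_of_mul hk
    have h2 := right_ne_zero_of_mul hk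
    rw [ind_ne_zero] at h1
    obtain ⟨b, hb, e1, e2⟩ := h1
    obtain ⟨d, hd, e3, e4, e5⟩ := (eval_net Tr s₀ code ord hc x p k).2.1 h2
    have h3 : d = b := hc p hd hb (e3.trans e1.symm)
    subst h3
    refine ⟨d.2.2, e2, ?_⟩
    rw [hL, path_append]
    refine ⟨d.1, e4, d.2.2, ?_, rfl⟩
    rw [← e5]
    simpa using hb
  · rintro ⟨s', hs', h⟩
    rw [hL, path_append] at h
    obtain ⟨s₁, h1, s₂, h2, h3⟩ := h
    have h3' : s₂ = s' := h3
    subst h3'
    have h2' : (s₁, x (ord p), s₂) ∈ Tr p := by simpa using h2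
    refine ⟨code p (s₁, x (ord p), s₂), Finset.mem_univ _,
      mul_ne_zero (ind_ne_zero.2 ⟨_, h2', rfl, hs'⟩) ?_⟩
    exact (eval_net Tr s₀ code ord hc x p _).2.2 ⟨_, h2', rfl, h1, rfl⟩

open Classical in
theorem reads_net (v : V) (p : ℕ) : (net Tr s₀ code ord p).reads v =
    ((Finset.range (p + 1)).filter fun i => ord i = v).card := by
  induction p with
  | zero =>
    simp only [net, Net.reads]
    rw [Finset.range_one, Finset.filter_singleton]
    split_ifs <;> simp
  | succ p ih =>
    simp only [net, Net.reads]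
    rw [ih, Finset.range_add_one (n := p + 1), Finset.filter_insert]
    split_ifs with h
    · rw [Finset.card_insert_of_notMem (by simp)]
    · rw [add_zero]

theorem reads_net_le (v : V) (p : ℕ) (h : ∀ i j, i ≤ p → j ≤ p → ord i = ord j → i = j) :
    (net Tr s₀ code ord p).reads v ≤ 1 := by
  classical
  rw [reads_net]
  refine Finset.card_le_one.2 fun i hi j hj => ?_
  have hi' := Finset.mem_filter.1 hi
  have hj' := Finset.mem_filter.1 hj
  exact h i j (Nat.lt_succ_iff.1 (Finset.mem_range.1 hi'.1))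
    (Nat.lt_succ_iff.1 (Finset.mem_range.1 hj'.1)) (hi'.2.trans hj'.2.symm)

end net

variable {α : Type} {r m q : ℕ}

/-- the symbols of `r` strings in the order `ord` -/
def arr (ord : Fin (r * m) ≃ Fin r × Fin m) (x : Fin r → Fin m → α) : List α :=
  List.ofFn fun p => x (ord p).1 (ord p).2

theorem arr_injective (ord : Fin (r * m) ≃ Fin r × Fin m) :
    Function.Injective (arr (α := α) ord) := by
  intro x y h
  have h1 := List.ofFn_injective h
  funext j t
  have h2 := congrFun h1 (ord.symm (j, t))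
  simpa using h2

theorem arr_surjective (ord : Fin (r * m) ≃ Fin r × Fin m) (w : List α)
    (hw : w.length = r * m) : ∃ x, arr ord x = w := by
  refine ⟨fun j t => w[(ord.symm (j, t) : ℕ)]'(by rw [hw]; exact (ord.symm (j, t)).2), ?_⟩
  apply List.ext_getElem
  · simp [arr, hw]
  · intro i h1 h2
    simp [arr]

/-- The machine `M` decides the set `F` of `r`-tuples of strings in the time `T`: with the symbols of
a tuple in the order `ord` on its tape it has an accepting computation of at most `T` steps if the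
tuple is in `F`, and no accepting computation otherwise. -/
def DecidesSet (M : Machine α q) (ord : Fin (r * m) ≃ Fin r × Fin m) (T : ℕ)
    (F : Set (Fin r → Fin m → α)) : Prop :=
  ∀ x, (x ∈ F → AcceptsIn M (arr ord x) T) ∧ (Accepts M (arr ord x) → x ∈ F)

/-- a set decided by a machine is given by a tensor network -/
theorem piece_of_machine [Fintype α] (hα : 2 ≤ Fintype.card α) (hN : 1 ≤ r * m) {T B l : ℕ}
    (hB : T < B * (l + 1)) {M : Machine α q} {ord : Fin (r * m) ≃ Fin r × Fin m}
    {F : Set (Fin r → Fin m → α)} (h : DecidesSet M ord T F) :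
    Piece (((q + 1) ^ l + 1) ^ 2 * Fintype.card α ^ (B + 1)) F := by
  classical
  obtain ⟨σ, Tr, s₀, acc, hT, hw⟩ := trellis M hα hB (N := r * m)
    (R := fun w => ∃ x, arr ord x = w ∧ x ∈ F)
    (by rintro w - ⟨x, rfl, hx⟩; exact (h x).1 hx)
    (by
      intro w hw hacc
      obtain ⟨x, rfl⟩ := arr_surjective ord w hw
      exact ⟨x, rfl, (h x).2 hacc⟩)
  set W := ((q + 1) ^ l + 1) ^ 2 * Fintype.card α ^ (B + 1) with hW
  have hW0 : 0 < W := by
    rw [hW]
    have : 0 < Fintype.card α := by omega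
    positivity
  have hcode : ∀ p, ∃ f : σ × α × σ → Fin W, Set.InjOn f (Tr p) := by
    intro p
    have hc : Fintype.card (Tr p) ≤ Fintype.card (Fin W) := by
      rw [Fintype.card_coe, Fintype.card_fin]
      exact hT p
    obtain ⟨e⟩ := Function.Embedding.nonempty_of_card_le hc
    refine ⟨fun b => if hb : b ∈ Tr p then e ⟨b, hb⟩ else ⟨0, hW0⟩, ?_⟩
    intro b hb b' hb' heq
    have hb1 : b ∈ Tr p := hb
    have hb2 : b' ∈ Tr p := hb'
    simp only [dif_pos hb1, dif_pos hb2] at heq
    exact congrArg Subtype.val (e.injective heq)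
  choose code hcode using hcode
  let ord' : ℕ → Fin r × Fin m := fun i => if hi : i < r * m then ord ⟨i, hi⟩ else ord ⟨0, hN⟩
  have hrange : ∀ x : Fin r → Fin m → α, (List.range (r * m - 1 + 1)).map
      (fun i => (fun p : Fin r × Fin m => x p.1 p.2) (ord' i)) = arr ord x := by
    intro x
    rw [Nat.sub_add_cancel hN]
    apply List.ext_getElem
    · simp [arr]
    · intro i h1 h2
      rw [List.length_map, List.length_range] at h1
      simp [arr, ord', h1]
  refine ⟨ℚ, inferInstance, Fin W, inferInstance, net Tr s₀ code ord' (r * m - 1),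
    outv Tr acc code (r * m - 1), by rw [Fintype.card_fin], ?_, ?_⟩
  · intro v
    refine reads_net_le Tr s₀ code ord' v (r * m - 1) fun i j hi hj hij => ?_
    have hi' : i < r * m := by omega
    have hj' : j < r * m := by omega
    simp only [ord', dif_pos hi', dif_pos hj'] at hij
    exact Fin.mk_eq_mk.1 (ord.injective hij)
  · ext x
    rw [Set.mem_ofPred_eq, value_net Tr s₀ acc code ord' hcode, hrange,
      ← hw (arr ord x) (by simp [arr])]
    constructor
    · intro hx
      exact ⟨x, rfl, hx⟩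
    · rintro ⟨y, hy, hyF⟩
      rwa [← arr_injective ord hy]

end Pool.Agent.U864.OT
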