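import Pool.Agent.U864.OT.Trellis

/-!
# The width of the trellis for machines with `T log₂ (q + 1) ≤ δ m²`
-/

set_option autoImplicit false

namespace Pool.Agent.U864.OT

open Real

/-- the choice of the parameters -/
theorem choose_params {r : ℕ} (hr : 1 ≤ r) {γ δ : ℝ} (hγ : 0 < γ) (hδ : δ < γ ^ 2 / (8 * r)) :
    ∃ m₀ : ℕ, ∀ m q T : ℕ, m₀ ≤ m → 1 ≤ q → (T : ℝ) * logb 2 (q + 1) ≤ δ * (m : ℝ) ^ 2 →
      ∃ B l : ℕ, T < B * (l + 1) ∧
        ((((q + 1) ^ l + 1) ^ 2 * (2 ^ r) ^ (B + 1) : ℕ) : ℝ) ≤ ((2 : ℝ) ^ m) ^ γ := by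
  have hr0 : (0 : ℝ) < r := by exact_mod_cast hr
  set ρ : ℝ := γ - (γ / 2 + 4 * r * δ / γ) with hρ
  have hρ0 : 0 < ρ := by
    rw [hρ]
    have h1 : 8 * r * δ < γ ^ 2 := by
      rw [lt_div_iff₀ (by positivity)] at hδ
      linarith
    have h2 : 4 * r * δ / γ < γ / 2 := by
      rw [div_lt_iff₀ hγ]
      nlinarith
    linarith
  obtain ⟨m₁, hm₁⟩ := exists_nat_ge ((2 + 2 * r) / ρ)
  refine ⟨max m₁ 1, fun m q T hm hq hT => ?_⟩
  have hm1 : (m₁ : ℝ) ≤ m := by exact_mod_cast (le_max_left _ _).trans hm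
  have hm2 : (1 : ℝ) ≤ m := by exact_mod_cast (le_max_right _ _).trans hm
  have hm3 : (2 + 2 * r : ℝ) ≤ ρ * m := by
    have := hm₁.trans hm1
    rw [div_le_iff₀ hρ0] at this
    linarith
  set lam : ℝ := logb 2 (q + 1) with hlam
  have hq1 : (2 : ℝ) ≤ q + 1 := by
    have : (1 : ℝ) ≤ q := by exact_mod_cast hq
    linarith
  have hlam1 : 1 ≤ lam := by
    rw [hlam, Real.le_logb_iff_rpow_le (by norm_num) (by linarith), rpow_one]
    exact hq1
  have hpw : ((q : ℝ) + 1) = 2 ^ lam := by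
    rw [hlam, Real.rpow_logb (by norm_num) (by norm_num) (by linarith)]
  set l : ℕ := ⌊γ * m / (4 * lam)⌋₊ with hl
  set B : ℕ := T / (l + 1) + 1 with hB
  refine ⟨B, l, ?_, ?_⟩
  · rw [hB]
    have := Nat.div_add_mod T (l + 1)
    have h2 := Nat.mod_lt T (Nat.succ_pos l)
    rw [Nat.succ_eq_add_one] at h2
    nlinarith
  · have hl1 : (l : ℝ) ≤ γ * m / (4 * lam) := Nat.floor_le (by positivity)
    have hl2 : γ * m / (4 * lam) < l + 1 := Nat.lt_floor_add_one _
    have hl3 : 2 * lam * l ≤ γ * m / 2 := by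
      calc 2 * lam * l ≤ 2 * lam * (γ * m / (4 * lam)) := by gcongr
        _ = γ * m / 2 := by field_simp; ring
    have hB1 : (B : ℝ) ≤ T / (l + 1) + 1 := by
      rw [hB]
      push_cast
      have := @Nat.cast_div_le ℝ _ _ _ T (l + 1)
      push_cast at this
      linarith
    have hT0 : (T : ℝ) / (l + 1) ≤ 4 * δ * m / γ := by
      have h1 : (0 : ℝ) < l + 1 := by positivity
      rw [div_le_iff₀ h1]
      have h3 : 0 ≤ 4 * δ * m / γ := by
        have : 0 ≤ δ * (m : ℝ) ^ 2 := le_trans (by positivity) hT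
        have h4 : 0 ≤ δ := by
          by_contra hneg
          rw [not_le] at hneg
          have : δ * (m : ℝ) ^ 2 < 0 := by
            apply mul_neg_of_neg_of_pos hneg
            positivity
          linarith
        positivity
      have h4 : (T : ℝ) ≤ δ * (m : ℝ) ^ 2 / lam := by
        rw [le_div_iff₀ (by linarith)]
        exact hT
      calc (T : ℝ) ≤ δ * (m : ℝ) ^ 2 / lam := h4
        _ = 4 * δ * m / γ * (γ * m / (4 * lam)) := by field_simp
        _ ≤ 4 * δ * m / γ * (l + 1) := by gcongr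
    have h1 : ((((q + 1) ^ l + 1) ^ 2 * (2 ^ r) ^ (B + 1) : ℕ) : ℝ) ≤
        2 ^ (2 + 2 * lam * l + r * (B + 1) : ℝ) := by
      push_cast
      have e1 : (1 : ℝ) ≤ ((q : ℝ) + 1) ^ l := one_le_pow₀ (by linarith)
      have e2 : (((q : ℝ) + 1) ^ l + 1) ^ 2 ≤ 2 ^ (2 + 2 * lam * l : ℝ) := by
        calc (((q : ℝ) + 1) ^ l + 1) ^ 2 ≤ (2 * ((q : ℝ) + 1) ^ l) ^ 2 := by
              gcongr
              linarith
          _ = 2 ^ (2 + 2 * lam * l : ℝ) := by
              rw [mul_pow, hpw, ← Real.rpow_natCast ((2 : ℝ) ^ lam) l,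
                ← Real.rpow_mul (by norm_num), ← Real.rpow_natCast ((2 : ℝ) ^ (lam * l)) 2,
                ← Real.rpow_mul (by norm_num), Real.rpow_add (by norm_num)]
              norm_num
              ring_nf
      have e3 : (((2 : ℝ) ^ r) ^ (B + 1)) = 2 ^ ((r : ℝ) * (B + 1)) := by
        rw [← pow_mul, ← Real.rpow_natCast]
        push_cast
        rfl
      rw [e3, Real.rpow_add (by norm_num)]
      gcongr
    refine h1.trans ?_
    rw [← Real.rpow_natCast 2 m, ← Real.rpow_mul (by norm_num)]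
    refine Real.rpow_le_rpow_of_exponent_le (by norm_num) ?_
    have h5 : (r : ℝ) * (B + 1) ≤ r * (4 * δ * m / γ) + 2 * r := by
      have : (B : ℝ) + 1 ≤ 4 * δ * m / γ + 2 := by linarith
      nlinarith
    have h6 : (r : ℝ) * (4 * δ * m / γ) = 4 * r * δ / γ * m := by ring
    have h7 : (m : ℝ) * γ = (γ / 2 + 4 * r * δ / γ) * m + ρ * m := by rw [hρ]; ring
    rw [h6] at h5
    have h8 : (γ / 2 + 4 * r * δ / γ) * m = γ * m / 2 + 4 * r * δ / γ * m := by ring
    linarith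

end Pool.Agent.U864.OT
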