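import Pool.Agent.U864.OT.Rewrite

/-!
# Machines which print words
-/

set_option autoImplicit false

namespace Pool.Agent.U864.OT

open Pool.Agent.TH454.BW Pool.Agent.H607R2.BW

/-- The machine `M`, started on the tape without input, can print the word `v` in at most `T` steps:
it has a computation of at most `T` steps to an accepting state after which the places `0, 1, …`
carry the letters of `v`. -/
def PrintsIn {A : Type} {q : ℕ} (M : Machine A q) (v : List A) (T : ℕ) : Prop :=
  ∃ (L : List (Fin q × ℤ)) (t₁ : ℤ → M.Γ), L.length ≤ T ∧ Run M M.start 0 M.out L t₁ ∧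
    ∀ (i : ℤ) (a : A), letter v i = some a → t₁ i = M.inp i a

variable {A : Type} {q : ℕ}

/-- the machine which does not see its input -/
def blind (M : Machine A q) : Machine A q where
  Γ := M.Γ
  inp := fun i _ => M.out i
  out := M.out
  start := M.start
  acc := M.acc
  step := M.step

theorem run_blind {M : Machine A q} {s : Fin q} {p : ℤ} {t t₁ : ℤ → M.Γ}
    {L : List (Fin q × ℤ)} (h : Run M s p t L t₁) : Run (blind M) s p t L t₁ := by
  induction h with
  | halt s p t hs => exact .halt (M := blind M) s p t hs
  | move s p t g s' p' L t₁ hst hd _ ih =>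
    exact .move (M := blind M) s p t g s' p' L t₁ hst hd ih

theorem blind_run {M : Machine A q} {s : Fin q} {p : ℤ}
    {t t₁ : ℤ → (blind M).Γ} {L : List (Fin q × ℤ)} (h : Run (blind M) s p t L t₁) :
    Run M s p t L t₁ := by
  induction h with
  | halt s p t hs => exact .halt (M := M) s p t hs
  | move s p t g s' p' L t₁ hst hd _ ih => exact .move (M := M) s p t g s' p' L t₁ hst hd ih

/-- the condition for the final tape -/
def printed (M : Machine A q) : ℤ → Option A → (blind M).Γ → Prop :=
  fun i o g => ∀ a, o = some a → g = M.inp i a

theorem good_blind (M : Machine A q) (v : List A) (T : ℕ) :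
    Good' (blind M) (printed M) v T ↔ PrintsIn M v T := by
  have ht : tape (blind M) v = M.out := by
    funext i
    unfold tape
    cases letter v i <;> rfl
  constructor
  · rintro ⟨L, t₁, h1, h2, h3⟩
    refine ⟨L, t₁, h1, ?_, fun i a ha => h3 i a ha⟩
    rw [← ht]
    exact blind_run h2
  · rintro ⟨L, t₁, h1, h2, h3⟩
    refine ⟨L, t₁, h1, ?_, fun i a ha => h3 i a ha⟩
    rw [ht]
    exact run_blind h2

section printer

variable [Fintype A]

/-- the machine which prints a word in one sweep and remembers it -/
noncomputable def printer (N : ℕ) (R : List A → Prop) : Machine A (short A (N + 1)).card where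
  Γ := Option A
  inp := fun _ a => some a
  out := fun _ => none
  start := cod A N ⟨[], mem_short.2 (by simp)⟩
  acc := {s | ((cod A N).symm s).1.length = N ∧ R ((cod A N).symm s).1}
  step := fun p s _ g' s' p' => ∃ a : A, g' = some a ∧ p' = p + 1 ∧
    ((cod A N).symm s').1 = ((cod A N).symm s).1 ++ [a]

omit [Fintype A] in
/-- the tape after `n` steps -/
def part (w : List A) (n : ℕ) : ℤ → Option A := mix (n : ℤ) (letter w) fun _ => none

omit [Fintype A] in
theorem part_succ (w : List A) (n : ℕ) (hn : n < w.length) :
    Function.update (part w n) (n : ℤ) (some w[n]) = part w (n + 1) := by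
  funext i
  by_cases hi : i = n
  · subst hi
    rw [Function.update_self]
    unfold part
    rw [mix_lt _ _ (by push_cast; omega), letter_nat, List.getElem?_eq_getElem hn]
  · rw [Function.update_of_ne hi]
    unfold part mix
    by_cases h : i < n
    · rw [if_pos h, if_pos (by push_cast; omega)]
    · rw [if_neg h, if_neg (by push_cast; omega)]

theorem printer_complete (N : ℕ) (R : List A → Prop) (w : List A) (hw : w.length = N)
    (hR : R w) : ∀ (n p : ℕ) (s : Fin _), p + n = N → ((cod A N).symm s).1 = w.take p →
      ∃ L, L.length = n ∧ Run (printer N R) s (p : ℤ) (part w p) L (part w N) := by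
  intro n
  induction n with
  | zero =>
    intro p s hp hs
    have hpN : p = N := by omega
    subst hpN
    rw [List.take_of_length_le (by omega)] at hs
    exact ⟨[], rfl, .halt _ _ _ ⟨by rw [hs]; exact hw, by rw [hs]; exact hR⟩⟩
  | succ n ih =>
    intro p s hp hs
    have hlt : p < w.length := by omega
    have hmem : w.take (p + 1) ∈ short A (N + 1) := mem_short.2 (by
      rw [List.length_take]; omega)
    obtain ⟨L, h1, h2⟩ := ih (p + 1) (cod A N ⟨w.take (p + 1), hmem⟩) (by omega)
      (by rw [Equiv.symm_apply_apply])
    refine ⟨(cod A N ⟨w.take (p + 1), hmem⟩, ((p + 1 : ℕ) : ℤ)) :: L,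
      by rw [List.length_cons, h1], .move _ _ _ (some w[p]) _ _ _ _ ?_ ?_ ?_⟩
    · refine ⟨w[p], rfl, by push_cast; rfl, ?_⟩
      rw [Equiv.symm_apply_apply, hs]
      exact (List.take_concat_get' w p hlt).symm
    · push_cast
      simp
    · have e := part_succ w p hlt
      exact Eq.mpr (congrArg (fun t : ℤ → Option A => Run (printer N R)
        (cod A N ⟨w.take (p + 1), hmem⟩) ((p + 1 : ℕ) : ℤ) t L (part w N)) e) h2

theorem printer_sound (N : ℕ) (R : List A → Prop) {s : Fin _} {p : ℤ}
    {t t₁ : ℤ → (printer N R).Γ} {L : List (Fin _ × ℤ)} (h : Run (printer N R) s p t L t₁) :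
    ∀ (n : ℕ) (w : List A), p = n → w.length = n → (∀ i, t i = part w n i) →
      ((cod A N).symm s).1 = w → ∃ w', w'.length = N ∧ R w' ∧ ∀ i, t₁ i = part w' N i := by
  induction h with
  | halt s p t hs =>
    intro n w _ hw ht h1
    have h2 := hs.1
    have h3 := hs.2
    rw [h1] at h2 h3
    refine ⟨w, h2, h3, fun i => ?_⟩
    rw [ht i, ← h2, hw]
  | move s p t g s' p' L t₁ hst hd hr ih =>
    intro n w hp hw ht h1
    obtain ⟨a, e1, e2, e3⟩ := hst
    subst hp
    refine ih (n + 1) (w ++ [a]) (by rw [e2]; push_cast; ring) (by simp [hw]) ?_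
      (by rw [e3, h1])
    intro i
    by_cases hi : i = n
    · subst hi
      unfold part
      rw [Function.update_self, mix_lt _ _ (by push_cast; omega), letter_nat, e1]
      rw [List.getElem?_append_right (by simp [hw])]
      simp only [hw, Nat.sub_self]
      rfl
    · rw [Function.update_of_ne hi, ht i]
      unfold part mix
      by_cases h : i < n
      · rw [if_pos h, if_pos (by push_cast; omega)]
        unfold letter
        by_cases h0 : 0 ≤ i
        · rw [if_pos h0, if_pos h0, List.getElem?_append_left (by omega)]
        · rw [if_neg h0, if_neg h0]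
      · rw [if_neg h, if_neg (by push_cast; omega)]

/-- every set of words of length `N` is printed in `N` steps -/
theorem printer_prints (N : ℕ) (R : List A → Prop) (w : List A) (hw : w.length = N) :
    (R w → PrintsIn (printer N R) w N) ∧ ∀ T, PrintsIn (printer N R) w T → R w := by
  have hstart : ((cod A N).symm (printer N R).start).1 = [] := by
    unfold printer
    rw [Equiv.symm_apply_apply]
  have hout : (printer N R).out = part w 0 := by
    funext i
    unfold part mix
    by_cases hi : i < ((0 : ℕ) : ℤ)
    · rw [if_pos hi]
      unfold letter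
      rw [if_neg (by push_cast at hi; omega)]
      rfl
    · rw [if_neg hi]
      rfl
  constructor
  · intro hR
    obtain ⟨L, h1, h2⟩ := printer_complete N R w hw hR N 0 (printer N R).start (by omega) (by
      rw [hstart]
      simp)
    refine ⟨L, part w N, h1.le, ?_, ?_⟩
    · rw [hout]
      exact h2
    · intro i a ha
      have hi : i < (N : ℤ) := by
        unfold letter at ha
        split_ifs at ha with h0
        have := (List.getElem?_eq_some_iff.1 ha).1
        omega
      unfold part
      rw [mix_lt _ _ hi, ha]
      rfl
  · rintro T ⟨L, t₁, -, h, hf⟩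
    obtain ⟨w', h1, h2, h3⟩ := printer_sound N R h 0 [] rfl rfl (by
      intro i
      rw [hout]
      unfold part mix
      by_cases hi : i < ((0 : ℕ) : ℤ)
      · rw [if_pos hi, if_pos hi]
        unfold letter
        rw [if_neg (by push_cast at hi; omega), if_neg (by push_cast at hi; omega)]
      · rw [if_neg hi, if_neg hi]) hstart
    have h4 : w = w' := by
      apply List.ext_getElem (by omega)
      intro i hi hi'
      have h5 := hf (i : ℤ) w[i] (by rw [letter_nat, List.getElem?_eq_getElem hi])
      have h6 := h3 (i : ℤ)
      unfold part at h6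
      rw [mix_lt _ _ (by omega), letter_nat, List.getElem?_eq_getElem hi', h5] at h6
      exact Option.some_injective _ h6
    rwa [h4]

end printer

end Pool.Agent.U864.OT
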