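import Pool.Agent.U864.OT.Num
import Pool.Agent.H554R2.RK.Defs

/-!
# One-tape machines with several copies of every bit give programs which read every bit several times
-/

set_option autoImplicit false

namespace Pool.Agent.U864.OT

open Pool.Agent.TH454.BW Pool.Agent.H554R2.Sem

/-- The trellis of a machine, the two directions separately. -/
theorem trellis_two {A : Type} [Fintype A] {q : ℕ} (M : Machine A q) (hA : 2 ≤ Fintype.card A)
    {N T B l : ℕ} (hB : T < B * (l + 1)) :
    ∃ (σ : Type) (Tr : ℕ → Finset (σ × A × σ)) (s₀ : σ) (acc : Set σ),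
      (∀ p, (Tr p).card ≤ ((q + 1) ^ l + 1) ^ 2 * Fintype.card A ^ (B + 1)) ∧
      ∀ w : List A, w.length = N → (AcceptsIn M w T → ∃ s' ∈ acc, Path Tr 0 s₀ w s') ∧
        ((∃ s' ∈ acc, Path Tr 0 s₀ w s') → Accepts M w) := by
  refine ⟨_, tre M (fun _ _ _ => True) N B l, (none, []), fin M (fun _ _ _ => True) N,
    card_tre M _ hA N B l, fun w hw => ⟨fun h => ?_, fun h => ?_⟩⟩
  · obtain ⟨L, t₁, h1, h2⟩ := h
    exact complete hB hw ⟨L, t₁, h1, h2, fun _ => trivial⟩
  · obtain ⟨T', L, t₁, h1, h2, -⟩ := sound hw h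
    exact ⟨T', L, t₁, h1, h2⟩

section

variable {σ : Type} (Tr : ℕ → Finset (σ × Bool × σ)) (s₀ : σ) (acc : Set σ) {n N : ℕ}
  (src : Fin N → Fin n)

/-- the branching program of a trellis: its nodes are the branches and a start node -/
@[reducible] def prog : NBP (Fin n) where
  State := Option (Σ p : Fin N, Tr p)
  start := none
  query := fun q => q.map fun z => src z.1
  edge := fun q a t =>
    match q, t with
    | none, some (some z) => (z.1 : ℕ) = 0 ∧ z.2.1.1 = s₀
    | some y, some (some z) => (z.1 : ℕ) = y.1 + 1 ∧ a = y.2.1.2.1 ∧ z.2.1.1 = y.2.1.2.2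
    | some y, none => (y.1 : ℕ) + 1 = N ∧ a = y.2.1.2.1 ∧ y.2.1.2.2 ∈ acc
    | _, _ => False

theorem card_prog {β : ℕ} (h : ∀ p, (Tr p).card ≤ β) :
    Fintype.card (prog Tr s₀ acc src).State ≤ N * β + 1 := by
  have h1 : Fintype.card (prog Tr s₀ acc src).State =
      Fintype.card (Option (Σ p : Fin N, Tr p)) := rfl
  rw [h1, Fintype.card_option, Fintype.card_sigma]
  have h2 : ∑ p : Fin N, Fintype.card (Tr p) ≤ ∑ _p : Fin N, β := by
    refine Finset.sum_le_sum fun p _ => ?_
    rw [Fintype.card_coe]
    exact h p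
  simp only [Finset.sum_const, Finset.card_univ, Fintype.card_fin, smul_eq_mul] at h2
  omega

/-- the word read by the machine -/
def wd (z : Fin n → Bool) : List Bool := List.ofFn fun p => z (src p)

theorem run_iff (z : Fin n → Bool) : ∀ (j p : ℕ) (hp : p < N) (b : Tr p), p + j + 1 = N →
    ((∃ l, hd l none = some (some ⟨⟨p, hp⟩, b⟩) ∧ (prog Tr s₀ acc src).Run z l none) ↔
      b.1.2.1 = z (src ⟨p, hp⟩) ∧
        ∃ s' ∈ acc, Path Tr (p + 1) b.1.2.2 ((wd src z).drop (p + 1)) s') := by
  intro j
  induction j with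
  | zero =>
    intro p hp b hj
    have hlen : (wd src z).drop (p + 1) = [] := by
      rw [List.drop_eq_nil_iff]
      simp [wd]
      omega
    rw [hlen]
    constructor
    · rintro ⟨l, h1, h2⟩
      match l, h1, h2 with
      | q :: l', h1, h2 =>
        have h3 : q = some ⟨⟨p, hp⟩, b⟩ := by
          have : some q = some (some ⟨⟨p, hp⟩, b⟩) := h1
          exact Option.some_injective _ this
        subst h3
        have h4 : (prog Tr s₀ acc src).edge (some ⟨⟨p, hp⟩, b⟩) (z (src ⟨p, hp⟩))
            (hd l' none) := h2.1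
        rcases h5 : hd l' none with _ | q'
        · rw [h5] at h4
          obtain ⟨-, h6, h7⟩ := h4
          exact ⟨h6.symm, _, h7, rfl⟩
        · rw [h5] at h4
          rcases q' with _ | z'
          · exact h4.elim
          · obtain ⟨h6, -⟩ := h4
            have := z'.1.2
            simp only at h6
            omega
    · rintro ⟨h1, s', hs', h2⟩
      have h2' : b.1.2.2 = s' := h2
      refine ⟨[some ⟨⟨p, hp⟩, b⟩], rfl, ?_, trivial⟩
      show (prog Tr s₀ acc src).edge (some ⟨⟨p, hp⟩, b⟩) (z (src ⟨p, hp⟩)) none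
      exact ⟨by simp only; omega, h1.symm, by rw [h2']; exact hs'⟩
  | succ j ih =>
    intro p hp b hj
    have hlt : p + 1 < N := by omega
    have hdrop : (wd src z).drop (p + 1) =
        z (src ⟨p + 1, hlt⟩) :: (wd src z).drop (p + 1 + 1) := by
      have hl : p + 1 < (wd src z).length := by simp [wd, hlt]
      rw [List.drop_eq_getElem_cons hl]
      simp [wd]
    rw [hdrop]
    constructor
    · rintro ⟨l, h1, h2⟩
      match l, h1, h2 with
      | q :: l', h1, h2 =>
        have h3 : q = some ⟨⟨p, hp⟩, b⟩ := by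
          have : some q = some (some ⟨⟨p, hp⟩, b⟩) := h1
          exact Option.some_injective _ this
        subst h3
        have h4 : (prog Tr s₀ acc src).edge (some ⟨⟨p, hp⟩, b⟩) (z (src ⟨p, hp⟩))
            (hd l' none) := h2.1
        have h2' : (prog Tr s₀ acc src).Run z l' none := h2.2
        rcases h5 : hd l' none with _ | q'
        · rw [h5] at h4
          obtain ⟨h6, -⟩ := h4
          simp only at h6
          omega
        · rw [h5] at h4
          rcases q' with _ | ⟨p', b'⟩
          · exact h4.elim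
          · obtain ⟨h6, h7, h8⟩ := h4
            simp only at h6 h7 h8
            obtain rfl : p' = ⟨p + 1, hlt⟩ := Fin.ext h6
            obtain ⟨h9, s', hs', h10⟩ := (ih (p + 1) hlt b' (by omega)).1 ⟨l', h5, h2'⟩
            refine ⟨h7.symm, s', hs', b'.1.2.2, ?_, h10⟩
            rw [← h8, ← h9]
            exact b'.2
    · rintro ⟨h1, s', hs', s₁, h2, h3⟩
      obtain ⟨l', h5, h6⟩ := (ih (p + 1) hlt ⟨_, h2⟩ (by omega)).2 ⟨rfl, s', hs', h3⟩
      refine ⟨some ⟨⟨p, hp⟩, b⟩ :: l', rfl, ?_, h6⟩
      rw [h5]
      show (prog Tr s₀ acc src).edge (some ⟨⟨p, hp⟩, b⟩) (z (src ⟨p, hp⟩))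
        (some (some ⟨⟨p + 1, hlt⟩, ⟨_, h2⟩⟩))
      exact ⟨rfl, h1.symm, rfl⟩

theorem acc_iff (hN : 1 ≤ N) (z : Fin n → Bool) :
    Pool.Agent.H554R2.RK.Acc (prog Tr s₀ acc src) z ↔
      ∃ s' ∈ acc, Path Tr 0 s₀ (wd src z) s' := by
  have hdrop : wd src z = z (src ⟨0, hN⟩) :: (wd src z).drop (0 + 1) := by
    have hl : 0 < (wd src z).length := by simp [wd]; omega
    conv_lhs => rw [← List.drop_zero (l := wd src z), List.drop_eq_getElem_cons hl]
    simp [wd]
  constructor
  · rintro ⟨l, h1, h2⟩
    match l, h1, h2 with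
    | q :: l', h1, h2 =>
      have h3 : q = none := by
        have : some q = some none := h1
        exact Option.some_injective _ this
      subst h3
      have h4 : ∃ b, (prog Tr s₀ acc src).edge none b (hd l' none) := h2.1
      have h2' : (prog Tr s₀ acc src).Run z l' none := h2.2
      obtain ⟨b, h4⟩ := h4
      rcases h5 : hd l' none with _ | q'
      · rw [h5] at h4
        exact h4.elim
      · rw [h5] at h4
        rcases q' with _ | ⟨p', b'⟩
        · exact h4.elim
        · obtain ⟨h6, h7⟩ := h4
          simp only at h6 h7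
          obtain rfl : p' = ⟨0, hN⟩ := Fin.ext h6
          obtain ⟨h9, s', hs', h10⟩ :=
            (run_iff Tr s₀ acc src z (N - 1) 0 hN b' (by omega)).1 ⟨l', h5, h2'⟩
          refine ⟨s', hs', ?_⟩
          rw [hdrop]
          refine ⟨b'.1.2.2, ?_, h10⟩
          rw [← h7, ← h9]
          exact b'.2
  · rintro ⟨s', hs', h⟩
    rw [hdrop] at h
    obtain ⟨s₁, h2, h3⟩ := h
    obtain ⟨l', h5, h6⟩ := (run_iff Tr s₀ acc src z (N - 1) 0 hN ⟨_, h2⟩ (by omega)).2
      ⟨rfl, s', hs', h3⟩
    refine ⟨none :: l', rfl, ?_, h6⟩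
    rw [h5]
    show ∃ b, (prog Tr s₀ acc src).edge none b (some (some ⟨⟨0, hN⟩, ⟨_, h2⟩⟩))
    exact ⟨true, rfl, rfl⟩

theorem count_le (v : Fin n) (t : Option (prog Tr s₀ acc src).State) :
    ∀ (l : List (prog Tr s₀ acc src).State) (p : Fin N) (b : Tr p),
      hd l t = some (some ⟨p, b⟩) → Pool.Agent.H554R2.RK.Path (prog Tr s₀ acc src) l t →
      (l.map (prog Tr s₀ acc src).query).count (some v) ≤
        (Finset.univ.filter fun p' : Fin N => p ≤ p' ∧ src p' = v).card := by
  intro l
  induction l with
  | nil => intro p b _ _; simp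
  | cons q l ih =>
    intro p b h1 h2
    have h3 : q = some ⟨p, b⟩ := by
      have : some q = some (some ⟨p, b⟩) := h1
      exact Option.some_injective _ this
    subst h3
    rw [List.map_cons, List.count_cons]
    have hq : (prog Tr s₀ acc src).query (some ⟨p, b⟩) = some (src p) := rfl
    rw [hq]
    obtain ⟨⟨a, h4⟩, h5⟩ := h2
    -- the rest of the path
    have hrest : (l.map (prog Tr s₀ acc src).query).count (some v) ≤
        (Finset.univ.filter fun p' : Fin N => p < p' ∧ src p' = v).card := by
      match l, h4, h5, ih with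
      | [], _, _, _ => simp
      | q' :: l', h4, h5, ih =>
        have h6 : (prog Tr s₀ acc src).edge (some ⟨p, b⟩) a (some q') := h4
        rcases q' with _ | ⟨p', b'⟩
        · exact h6.elim
        · obtain ⟨h7, -⟩ := h6
          simp only at h7
          refine (ih p' b' rfl h5).trans (Finset.card_le_card fun x hx => ?_)
          rw [Finset.mem_filter] at hx ⊢
          refine ⟨hx.1, ?_, hx.2.2⟩
          have := hx.2.1
          rw [Fin.le_def] at this
          rw [Fin.lt_def]
          omega
    have hsub : (Finset.univ.filter fun p' : Fin N => p < p' ∧ src p' = v).card +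
        (if (some (src p) == some v) = true then 1 else 0) ≤
        (Finset.univ.filter fun p' : Fin N => p ≤ p' ∧ src p' = v).card := by
      by_cases hv : src p = v
      · rw [if_pos (by simp [hv])]
        have : (Finset.univ.filter fun p' : Fin N => p < p' ∧ src p' = v) ⊆
            (Finset.univ.filter fun p' : Fin N => p ≤ p' ∧ src p' = v).erase p := by
          intro x hx
          rw [Finset.mem_filter] at hx
          rw [Finset.mem_erase, Finset.mem_filter]
          exact ⟨hx.2.1.ne', Finset.mem_univ _, hx.2.1.le, hx.2.2⟩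
        have h8 := Finset.card_le_card this
        rw [Finset.card_erase_of_mem (Finset.mem_filter.2 ⟨Finset.mem_univ _, le_rfl, hv⟩)] at h8
        have h9 : 0 < (Finset.univ.filter fun p' : Fin N => p ≤ p' ∧ src p' = v).card :=
          Finset.card_pos.2 ⟨p, Finset.mem_filter.2 ⟨Finset.mem_univ _, le_rfl, hv⟩⟩
        omega
      · rw [if_neg (by simp [hv]), add_zero]
        refine Finset.card_le_card fun x hx => ?_
        rw [Finset.mem_filter] at hx ⊢
        exact ⟨hx.1, hx.2.1.le, hx.2.2⟩
    omega

theorem readK_prog {k : ℕ}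
    (hk : ∀ v, (Finset.univ.filter fun p : Fin N => src p = v).card ≤ k) :
    Pool.Agent.H554R2.RK.ReadK (prog Tr s₀ acc src) k := by
  intro l t h1 h2 v
  match l, h1, h2 with
  | [], _, _ => simp
  | q :: l', h1, h2 =>
    have h3 : q = none := by
      have : some q = some none := h1
      exact Option.some_injective _ this
    subst h3
    rw [List.map_cons, List.count_cons]
    have hq : (prog Tr s₀ acc src).query none = none := rfl
    rw [hq, if_neg (by simp), add_zero]
    obtain ⟨⟨a, h4⟩, h5⟩ := h2
    match l', h4, h5 with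
    | [], _, _ => simp
    | q' :: l'', h4, h5 =>
      have h6 : (prog Tr s₀ acc src).edge none a (some q') := h4
      rcases q' with _ | ⟨p', b'⟩
      · exact h6.elim
      · refine (count_le Tr s₀ acc src v t _ p' b' rfl h5).trans (le_trans ?_ (hk v))
        refine Finset.card_le_card fun x hx => ?_
        rw [Finset.mem_filter] at hx ⊢
        exact ⟨hx.1, hx.2.2⟩

end

end Pool.Agent.U864.OT
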