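import Pool.Agent.U864.OT.Store

/-!
# Machines which rewrite the name of a vertex into the name of a neighbour
-/

set_option autoImplicit false

namespace Pool.Agent.U864.OT

open Pool.Agent.TH454.BW Pool.Agent.H607R2.BW

/-- The machine `M` can rewrite the word `w` on its tape into the word `v` in at most `T` steps: it
has a computation of at most `T` steps from `w` to an accepting state after which the places of the
input carry the letters of `v`. -/
def RewritesIn {A : Type} {q : ℕ} (M : Machine A q) (w v : List A) (T : ℕ) : Prop :=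
  ∃ (L : List (Fin q × ℤ)) (t₁ : ℤ → M.Γ), L.length ≤ T ∧ Run M M.start 0 (tape M w) L t₁ ∧
    ∀ (i : ℤ) (a : A), letter v i = some a → t₁ i = M.inp i a

theorem letter_map {A C : Type} (f : A → C) (w : List A) (i : ℤ) :
    letter (w.map f) i = (letter w i).map f := by
  unfold letter
  split_ifs
  · rw [List.getElem?_map]
  · rfl

/-- the machine which finds pairs of letters on its tape and sees the first ones -/
def pairMachine {q : ℕ} (M : Machine Bool q) : Machine (Fin 2 → Bool) q where
  Γ := M.Γ
  inp := fun i a => M.inp i (a 0)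
  out := M.out
  start := M.start
  acc := M.acc
  step := M.step

theorem run_pair {q : ℕ} {M : Machine Bool q} {s : Fin q} {p : ℤ} {t t₁ : ℤ → M.Γ}
    {L : List (Fin q × ℤ)} (h : Run M s p t L t₁) : Run (pairMachine M) s p t L t₁ := by
  induction h with
  | halt s p t hs => exact .halt (M := pairMachine M) s p t hs
  | move s p t g s' p' L t₁ hst hd _ ih =>
    exact .move (M := pairMachine M) s p t g s' p' L t₁ hst hd ih

theorem pair_run {q : ℕ} {M : Machine Bool q} {s : Fin q} {p : ℤ}
    {t t₁ : ℤ → (pairMachine M).Γ} {L : List (Fin q × ℤ)} (h : Run (pairMachine M) s p t L t₁) :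
    Run M s p t L t₁ := by
  induction h with
  | halt s p t hs => exact .halt (M := M) s p t hs
  | move s p t g s' p' L t₁ hst hd _ ih => exact .move (M := M) s p t g s' p' L t₁ hst hd ih

theorem word_map {m : ℕ} (x : Fin 2 → Str m) (j : Fin 2) :
    (word x).map (fun a => a j) = List.ofFn (x j) := by
  unfold word
  rw [List.map_ofFn]
  rfl

/-- the condition for the final tape -/
def second {q : ℕ} (M : Machine Bool q) :
    ℤ → Option (Fin 2 → Bool) → (pairMachine M).Γ → Prop :=
  fun i o g => ∀ a, o = some a → g = M.inp i (a 1)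

theorem good_pair {m q : ℕ} (M : Machine Bool q) (x : Fin 2 → Str m) (T : ℕ) :
    Good' (pairMachine M) (second M) (word x) T ↔
      RewritesIn M (List.ofFn (x 0)) (List.ofFn (x 1)) T := by
  have ht : tape (pairMachine M) (word x) = tape M (List.ofFn (x 0)) := by
    funext i
    unfold tape
    rw [← word_map x 0, letter_map]
    cases letter (word x) i <;> rfl
  have hf : ∀ t₁ : ℤ → M.Γ, Fits (pairMachine M) (second M) (word x) t₁ ↔
      ∀ (i : ℤ) (a : Bool), letter (List.ofFn (x 1)) i = some a → t₁ i = M.inp i a := by
    intro t₁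
    unfold Fits second
    refine forall_congr' fun i => ?_
    rw [← word_map x 1, letter_map]
    cases letter (word x) i with
    | none => simp
    | some b =>
      simp only [Option.some.injEq, forall_eq', Option.map_some]
      exact Iff.rfl
  constructor
  · rintro ⟨L, t₁, h1, h2, h3⟩
    refine ⟨L, t₁, h1, ?_, (hf t₁).1 h3⟩
    rw [← ht]
    exact pair_run h2
  · rintro ⟨L, t₁, h1, h2, h3⟩
    refine ⟨L, t₁, h1, ?_, (hf t₁).2 h3⟩
    rw [ht]
    exact run_pair h2

/-- machines which rewrite strings give trellises -/
theorem trellis_of_rewriting {m q T B l : ℕ} (M : Machine Bool q)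
    {R : Str m → Str m → Prop} (hB : T < B * (l + 1))
    (h1 : ∀ x y, R x y → RewritesIn M (List.ofFn x) (List.ofFn y) T)
    (h2 : ∀ x y T', RewritesIn M (List.ofFn x) (List.ofFn y) T' → R x y) :
    HasTrellis (((q + 1) ^ l + 1) ^ 2 * (2 ^ 2) ^ (B + 1))
      (fun x : Fin 2 → Str m => R (x 0) (x 1)) := by
  have := trellis_of_machine (pairMachine M) (second M) (R := fun x : Fin 2 → Str m =>
    R (x 0) (x 1)) hB (fun x hx => (good_pair M x T).2 (h1 _ _ hx))
    (fun x T' h => h2 _ _ T' ((good_pair M x T').1 h))
  simpa using this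

/-- the machine which rewrites a string in one sweep and remembers everything -/
noncomputable def sweep (m : ℕ) (R : (Fin 2 → Str m) → Prop) :
    Machine Bool (short (Fin 2 → Bool) (m + 1)).card where
  Γ := Option Bool
  inp := fun _ a => some a
  out := fun _ => none
  start := cod (Fin 2 → Bool) m ⟨[], mem_short.2 (by simp)⟩
  acc := {s | ∃ x, ((cod (Fin 2 → Bool) m).symm s).1 = word x ∧ R x}
  step := fun p s g g' s' p' => ∃ a : Fin 2 → Bool, g = some (a 0) ∧ g' = some (a 1) ∧
    p' = p + 1 ∧ ((cod (Fin 2 → Bool) m).symm s').1 = ((cod (Fin 2 → Bool) m).symm s).1 ++ [a]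

theorem sweep_tape (m : ℕ) (R : (Fin 2 → Str m) → Prop) (w : List Bool) (i : ℤ) :
    tape (sweep m R) w i = letter w i := by
  unfold tape
  cases letter w i <;> rfl

theorem letter_nat {A : Type} (w : List A) (n : ℕ) : letter w (n : ℤ) = w[n]? := by
  unfold letter
  rw [if_pos (by positivity), Int.toNat_natCast]

/-- the tape after `n` steps -/
def mid (w : List (Fin 2 → Bool)) (n : ℕ) : ℤ → Option Bool :=
  mix (n : ℤ) (letter (w.map fun a => a 1)) (letter (w.map fun a => a 0))

theorem mid_succ (w : List (Fin 2 → Bool)) (n : ℕ) (hn : n < w.length) :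
    Function.update (mid w n) (n : ℤ) (some (w[n] 1)) = mid w (n + 1) := by
  funext i
  by_cases hi : i = n
  · subst hi
    rw [Function.update_self]
    unfold mid
    rw [mix_lt _ _ (by push_cast; omega), letter_map, letter_nat, List.getElem?_eq_getElem hn]
    rfl
  · rw [Function.update_of_ne hi]
    unfold mid mix
    by_cases h : i < n
    · rw [if_pos h, if_pos (by push_cast; omega)]
    · rw [if_neg h, if_neg (by push_cast; omega)]

theorem mid_at (w : List (Fin 2 → Bool)) (n : ℕ) (hn : n < w.length) :
    mid w n (n : ℤ) = some (w[n] 0) := by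
  unfold mid
  rw [mix_ge _ _ le_rfl, letter_map, letter_nat, List.getElem?_eq_getElem hn]
  rfl

theorem sweep_complete (m : ℕ) (R : (Fin 2 → Str m) → Prop) (x : Fin 2 → Str m) (hR : R x) :
    ∀ (n p : ℕ) (s : Fin _), p + n = m →
      ((cod (Fin 2 → Bool) m).symm s).1 = (word x).take p →
      ∃ L, L.length = n ∧ Run (sweep m R) s (p : ℤ) (mid (word x) p) L (mid (word x) m) := by
  have hlen : (word x).length = m := by simp [word]
  intro n
  induction n with
  | zero =>
    intro p s hp hs
    have hpm : p = m := by omega
    subst hpm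
    rw [List.take_of_length_le (by omega)] at hs
    exact ⟨[], rfl, .halt _ _ _ ⟨x, hs, hR⟩⟩
  | succ n ih =>
    intro p s hp hs
    have hlt : p < (word x).length := by omega
    have hmem : (word x).take (p + 1) ∈ short (Fin 2 → Bool) (m + 1) := mem_short.2 (by
      rw [List.length_take]; omega)
    obtain ⟨L, h1, h2⟩ := ih (p + 1) (cod (Fin 2 → Bool) m ⟨(word x).take (p + 1), hmem⟩)
      (by omega) (by rw [Equiv.symm_apply_apply])
    refine ⟨(cod (Fin 2 → Bool) m ⟨(word x).take (p + 1), hmem⟩, ((p + 1 : ℕ) : ℤ)) :: L,
      by rw [List.length_cons, h1], .move _ _ _ (some ((word x)[p] 1)) _ _ _ _ ?_ ?_ ?_⟩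
    · refine ⟨(word x)[p], mid_at _ _ hlt, rfl, by push_cast; rfl, ?_⟩
      rw [Equiv.symm_apply_apply, hs]
      exact (List.take_concat_get' (word x) p hlt).symm
    · push_cast
      simp
    · have e := mid_succ (word x) p hlt
      exact Eq.mpr (congrArg (fun t : ℤ → Option Bool => Run (sweep m R)
        (cod (Fin 2 → Bool) m ⟨(word x).take (p + 1), hmem⟩) ((p + 1 : ℕ) : ℤ) t L
        (mid (word x) m)) e) h2

theorem sweep_sound (m : ℕ) (R : (Fin 2 → Str m) → Prop) (X : List Bool) (hX : X.length = m)
    {s : Fin _} {p : ℤ} {t t₁ : ℤ → (sweep m R).Γ} {L : List (Fin _ × ℤ)}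
    (h : Run (sweep m R) s p t L t₁) :
    ∀ (n : ℕ) (w : List (Fin 2 → Bool)), p = n → w.length = n →
      (∀ i, t i = mix (n : ℤ) (letter (w.map fun a => a 1)) (letter X) i) →
      ((cod (Fin 2 → Bool) m).symm s).1 = w → w.map (fun a => a 0) = X.take n →
      ∃ x, R x ∧ X = List.ofFn (x 0) ∧ ∀ i : ℤ, 0 ≤ i → i < m →
        t₁ i = letter (List.ofFn (x 1)) i := by
  induction h with
  | halt s p t hs =>
    intro n w _ hw ht h1 h2
    obtain ⟨x, h3, h4⟩ := hs
    rw [h1] at h3
    have hn : n = m := by
      rw [← hw, h3]
      simp [word]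
    refine ⟨x, h4, ?_, ?_⟩
    · rw [h3, word_map, List.take_of_length_le (by omega)] at h2
      exact h2.symm
    · intro i h0 him
      rw [ht i, mix_lt _ _ (by omega), h3, word_map]
  | move s p t g s' p' L t₁ hst hd hr ih =>
    intro n w hp hw ht h1 h2
    obtain ⟨a, e1, e2, e3, e4⟩ := hst
    subst hp
    have h5 := ht (n : ℤ)
    rw [mix_ge _ _ le_rfl, letter_nat, e1] at h5
    obtain ⟨h6, h7⟩ := List.getElem?_eq_some_iff.1 h5.symm
    refine ih (n + 1) (w ++ [a]) (by rw [e3]; push_cast; ring) (by simp [hw]) ?_
      (by rw [e4, h1]) ?_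
    · intro i
      by_cases hi : i = n
      · subst hi
        rw [Function.update_self, mix_lt _ _ (by push_cast; omega), letter_nat, e2]
        rw [List.map_append, List.getElem?_append_right (by simp [hw])]
        simp only [List.length_map, hw, Nat.sub_self]
        rfl
      · rw [Function.update_of_ne hi, ht i]
        unfold mix
        by_cases h : i < n
        · rw [if_pos h, if_pos (by push_cast; omega)]
          unfold letter
          by_cases h0 : 0 ≤ i
          · rw [if_pos h0, if_pos h0, List.map_append, List.getElem?_append_left (by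
              simp only [List.length_map]; omega)]
          · rw [if_neg h0, if_neg h0]
        · rw [if_neg h, if_neg (by push_cast; omega)]
    · rw [List.map_append, h2, ← List.take_concat_get' X n h6, h7]
      rfl

/-- every relation is computed in `m` steps -/
theorem sweep_computes (m : ℕ) (R : (Fin 2 → Str m) → Prop) (x : Fin 2 → Str m) :
    (R x → RewritesIn (sweep m R) (List.ofFn (x 0)) (List.ofFn (x 1)) m) ∧
    ∀ T, RewritesIn (sweep m R) (List.ofFn (x 0)) (List.ofFn (x 1)) T → R x := by
  constructor
  · intro hR
    obtain ⟨L, h1, h2⟩ := sweep_complete m R x hR m 0 (sweep m R).start (by omega) (by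
      unfold sweep
      rw [Equiv.symm_apply_apply]
      simp)
    refine ⟨L, mid (word x) m, h1.le, ?_, ?_⟩
    · have h3 : tape (sweep m R) (List.ofFn (x 0)) = mid (word x) 0 := by
        funext i
        rw [sweep_tape]
        unfold mid
        rw [word_map, word_map]
        unfold mix
        by_cases hi : i < ((0 : ℕ) : ℤ)
        · rw [if_pos hi]
          unfold letter
          rw [if_neg (by push_cast at hi; omega), if_neg (by push_cast at hi; omega)]
        · rw [if_neg hi]
      rw [h3]
      exact h2
    · intro i a ha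
      have hi : i < (m : ℤ) ∧ 0 ≤ i := by
        unfold letter at ha
        split_ifs at ha with h0
        have := (List.getElem?_eq_some_iff.1 ha).1
        rw [List.length_ofFn] at this
        omega
      unfold mid
      rw [mix_lt _ _ hi.1, word_map, ha]
      rfl
  · rintro T ⟨L, t₁, -, h, hf⟩
    obtain ⟨y, h1, h2, h3⟩ := sweep_sound m R (List.ofFn (x 0)) (by simp) h 0 [] rfl rfl
      (by
        intro i
        rw [sweep_tape]
        unfold mix
        by_cases hi : i < ((0 : ℕ) : ℤ)
        · rw [if_pos hi]
          unfold letter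
          rw [if_neg (by push_cast at hi; omega), if_neg (by push_cast at hi; omega)]
        · rw [if_neg hi])
      (by unfold sweep; rw [Equiv.symm_apply_apply]) (by simp)
    have h4 : x 0 = y 0 := List.ofFn_injective h2
    have h5 : x 1 = y 1 := by
      funext i
      have h6 := hf (i : ℤ) (x 1 i) (by rw [letter_nat]; simp)
      have h7 := h3 (i : ℤ) (by positivity) (by exact_mod_cast i.2)
      rw [h6, letter_nat] at h7
      have h8 : some (x 1 i) = (List.ofFn (y 1))[(i : ℕ)]? := h7
      simpa using h8
    have h6 : x = y := by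
      funext j
      fin_cases j
      · exact h4
      · exact h5
    rwa [h6]

end Pool.Agent.U864.OT
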