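import Mathlib
import Pool.Agent.U864.OT.Basic
import Pool.Agent.U20.DL.Net

/-!
# One-tape machines which read samples

The accepted words of a nondeterministic one-tape machine are cut at several boundaries which are chosen by the
computation, and the pieces of words with the same cuts and the same crossing sequences are put together. A sample whose
examples are cut in this way has at most one damaged example for every cut.
-/

set_option autoImplicit false

open Finset

namespace Pool.Agent.U864.OT

open Pool.Agent.U20.DL (Ex par labelled Adv errors Pr Ks smp few_bad)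

variable {q : ℕ}

theorem mix_tape (M : Machine Bool q) {N : ℕ} (a : ℤ) (f f' : Fin N → Bool) :
    mix a (tape M (List.ofFn f)) (tape M (List.ofFn f')) =
      tape M (List.ofFn fun p : Fin N => if ((p : ℕ) : ℤ) < a then f p else f' p) := by
  funext i
  unfold mix tape letter
  by_cases h0 : 0 ≤ i
  · obtain ⟨j, rfl⟩ := Int.eq_ofNat_of_zero_le h0
    by_cases hj : j < N
    · have e : ∀ g : Fin N → Bool, (List.ofFn g)[(j : ℤ).toNat]? = some (g ⟨j, hj⟩) := by
        intro g
        simp [hj]
      simp only [h0, if_true, e]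
      split_ifs <;> rfl
    · have e : ∀ g : Fin N → Bool, (List.ofFn g)[(j : ℤ).toNat]? = none := by
        intro g
        simp [hj]
      simp only [h0, if_true, e]
      split_ifs <;> rfl
  · simp only [h0, if_false]
    split_ifs <;> rfl

/-- the words `f 0, f 1, ..., f j`, put together at the boundaries `a 1, ..., a j` -/
def comp {N : ℕ} (a : ℕ → ℤ) (f : ℕ → Fin N → Bool) : ℕ → Fin N → Bool
  | 0 => f 0
  | j + 1 => fun p => if ((p : ℕ) : ℤ) < a (j + 1) then comp a f j p else f (j + 1) p

theorem comp_eq {N : ℕ} (a : ℕ → ℤ) (f : ℕ → Fin N → Bool) (p : Fin N) (j : ℕ) : ∀ (J : ℕ), j ≤ J →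
    (∀ r, 1 ≤ r → r ≤ j → a r ≤ ((p : ℕ) : ℤ)) → (∀ r, j < r → r ≤ J → ((p : ℕ) : ℤ) < a r) →
    comp a f J p = f j p := by
  intro J
  induction J with
  | zero =>
    intro hj _ _
    obtain rfl : j = 0 := by omega
    rfl
  | succ J ih =>
    intro hj h1 h2
    rcases Nat.lt_or_ge J j with h | h
    · obtain rfl : j = J + 1 := by omega
      have := h1 (J + 1) (by omega) le_rfl
      simp only [comp]
      rw [if_neg (by omega)]
    · simp only [comp]
      rw [if_pos (h2 (J + 1) (by omega) le_rfl)]
      exact ih h h1 fun r hr hr' => h2 r hr (by omega)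

theorem comp_run (M : Machine Bool q) {N : ℕ} (a : ℕ → ℤ) (ha : StrictMono a)
    (f : ℕ → Fin N → Bool) (σ : ℕ → List (Fin q)) (J : ℕ)
    (h : ∀ j ≤ J, ∃ L t₁, Run M M.start 0 (tape M (List.ofFn (f j))) L t₁ ∧
      ∀ r, 1 ≤ r → r ≤ J → cs (a r) 0 L = σ r) :
    ∀ j ≤ J, ∃ L t₁, Run M M.start 0 (tape M (List.ofFn (comp a f j))) L t₁ ∧
      ∀ r, j < r → r ≤ J → cs (a r) 0 L = σ r := by
  intro j
  induction j with
  | zero =>
    intro hj
    obtain ⟨L, t₁, h1, h2⟩ := h 0 hj
    exact ⟨L, t₁, h1, fun r hr hr' => h2 r hr hr'⟩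
  | succ j ih =>
    intro hj
    obtain ⟨L, t₁, h1, h2⟩ := ih (by omega)
    obtain ⟨L', t₁', h1', h2'⟩ := h (j + 1) hj
    obtain ⟨K, hK, hK1, -, -⟩ := paste M (a (j + 1)) h1 h1'
      ((h2 (j + 1) (by omega) hj).trans (h2' (j + 1) (by omega) hj).symm)
    rw [mix_tape] at hK
    exact ⟨K, _, hK, fun r hr hr' => (hK1 (a r) (ha hr)).trans (h2' r (by omega) hr')⟩

/-- the bits of a labelled example: first the `n` bits of the point, then the label -/
def bit {n : ℕ} (e : Ex n) (j : Fin (n + 1)) : Bool := if h : (j : ℕ) < n then e.1 ⟨j, h⟩ else e.2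

/-- the word of a sample: the examples one after the other, `n + 1` bits each -/
def word {n m : ℕ} (S : Fin m → Ex n) : Fin (m * (n + 1)) → Bool := fun p => bit (S p.divNat) p.modNat

/-- the sample of a word -/
def unword {n m : ℕ} (F : Fin (m * (n + 1)) → Bool) (v : Fin m) : Ex n :=
  (fun j => F (finProdFinEquiv (v, j.castSucc)), F (finProdFinEquiv (v, Fin.last n)))

theorem divNat_pair {n m : ℕ} (v : Fin m) (j : Fin (n + 1)) :
    (finProdFinEquiv (v, j)).divNat = v := congrArg Prod.fst (finProdFinEquiv.symm_apply_apply (v, j))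

theorem modNat_pair {n m : ℕ} (v : Fin m) (j : Fin (n + 1)) :
    (finProdFinEquiv (v, j)).modNat = j := congrArg Prod.snd (finProdFinEquiv.symm_apply_apply (v, j))

theorem word_unword {n m : ℕ} (F : Fin (m * (n + 1)) → Bool) : word (unword F) = F := by
  funext p
  obtain ⟨⟨v, j⟩, rfl⟩ := finProdFinEquiv.surjective p
  unfold word bit unword
  rw [divNat_pair, modNat_pair]
  split_ifs with h
  · rfl
  · have : j = Fin.last n := by
      apply Fin.ext
      have := j.2
      simp only [Fin.val_last]
      omega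
    rw [this]

theorem unword_eq {n m : ℕ} (F : Fin (m * (n + 1)) → Bool) (S : Fin m → Ex n) (v : Fin m)
    (h : ∀ j : Fin (n + 1), F (finProdFinEquiv (v, j)) = word S (finProdFinEquiv (v, j))) :
    unword F v = S v := by
  unfold unword
  rw [h]
  have h1 : ∀ j : Fin (n + 1), word S (finProdFinEquiv (v, j)) = bit (S v) j := by
    intro j
    unfold word
    rw [divNat_pair, modNat_pair]
  apply Prod.ext
  · funext j
    simp only
    rw [h, h1]
    simp [bit]
  · simp only
    rw [h1]
    simp [bit]

end Pool.Agent.U864.OT
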