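import Mathlib
import Pool.Agent.U864.OT.Sample

/-!
# One-tape machines which read samples: the lower bound
-/

set_option autoImplicit false

open Finset

namespace Pool.Agent.U864.OT

open Pool.Agent.U20.DL (Ex par labelled Adv errors Pr Ks smp few_bad)

variable {q : ℕ}

/-- the number of the piece which contains the place `x` -/
def idx (a : ℕ → ℤ) (J : ℕ) (x : ℤ) : ℕ := Nat.findGreatest (fun r => a r ≤ x) J

theorem idx_le (a : ℕ → ℤ) (J : ℕ) (x : ℤ) : idx a J x ≤ J := Nat.findGreatest_le J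

theorem le_of_idx {a : ℕ → ℤ} (ha : StrictMono a) {J : ℕ} {x : ℤ} {r : ℕ} (h1 : 1 ≤ r)
    (h : r ≤ idx a J x) : a r ≤ x := by
  have h0 : idx a J x ≠ 0 := by omega
  have h2 : a (idx a J x) ≤ x := Nat.findGreatest_of_ne_zero (P := fun r => a r ≤ x) (n := J) rfl h0
  exact (ha.monotone h).trans h2

theorem lt_of_idx {a : ℕ → ℤ} {J : ℕ} {x : ℤ} {r : ℕ} (h : idx a J x < r) (hr : r ≤ J) : x < a r :=
  not_le.1 (Nat.findGreatest_is_greatest h hr)

theorem part_card {n m J E : ℕ} {a : ℕ → ℤ} (ha : StrictMono a)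
    (ha1 : ∀ r, ((r * (E * (n + 1)) : ℕ) : ℤ) ≤ a r)
    (ha2 : ∀ r, a r < (((r + 1) * (E * (n + 1)) : ℕ) : ℤ)) (hm : m ≤ (J + 2) * E)
    (j : Fin (J + 1)) :
    (univ.filter (fun v : Fin m =>
      (⟨idx a J (((v : ℕ) * (n + 1) : ℕ) : ℤ), Nat.lt_succ_of_le (idx_le _ _ _)⟩ : Fin (J + 1)) =
        j)).card ≤ 2 * E := by
  have hc : (Finset.Ico ((j : ℕ) * E) (((j : ℕ) + 2) * E)).card = 2 * E := by
    rw [Nat.card_Ico, Nat.add_mul]
    omega
  rw [← hc]
  refine card_le_card_of_injOn (fun v => (v : ℕ)) ?_ (fun x _ y _ h => Fin.ext h)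
  intro v hv
  have hv1 : idx a J (((v : ℕ) * (n + 1) : ℕ) : ℤ) = j := congrArg Fin.val (mem_filter.1 hv).2
  rw [mem_coe, Finset.mem_Ico]
  constructor
  · rcases Nat.eq_zero_or_pos (j : ℕ) with h0 | h0
    · rw [h0]
      omega
    · have h2 := le_of_idx ha (r := (j : ℕ)) (J := J) (x := (((v : ℕ) * (n + 1) : ℕ) : ℤ)) h0 hv1.ge
      have h3 : (j : ℕ) * (E * (n + 1)) ≤ (v : ℕ) * (n + 1) := by
        exact_mod_cast (ha1 _).trans h2
      rw [← mul_assoc] at h3
      exact Nat.le_of_mul_le_mul_right h3 (by omega)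
  · rcases Nat.lt_or_ge (j : ℕ) J with h0 | h0
    · have h2 := lt_of_idx (a := a) (J := J) (x := (((v : ℕ) * (n + 1) : ℕ) : ℤ))
        (r := (j : ℕ) + 1) (by omega) h0
      have h3 : (v : ℕ) * (n + 1) < ((j : ℕ) + 1 + 1) * (E * (n + 1)) := by
        exact_mod_cast h2.trans (ha2 _)
      rw [← mul_assoc] at h3
      exact Nat.lt_of_mul_lt_mul_right h3
    · have h4 : (j : ℕ) = J := by omega
      rw [h4]
      exact v.2.trans_le hm

/-- the examples which are cut -/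
def Bad {n m : ℕ} (a : ℕ → ℤ) (J : ℕ) (v : Fin m) : Prop :=
  ∃ r, 1 ≤ r ∧ r ≤ J ∧ (((v : ℕ) * (n + 1) : ℕ) : ℤ) < a r ∧
    a r < ((((v : ℕ) + 1) * (n + 1) : ℕ) : ℤ)

open Classical in
theorem bad_card {n m J : ℕ} (a : ℕ → ℤ) :
    (univ.filter (fun v : Fin m => Bad (n := n) a J v)).card ≤ J := by
  have h1 : ((univ.filter (fun v : Fin m => Bad (n := n) a J v)).image (fun v : Fin m => (v : ℕ))) ⊆
      (Finset.Icc 1 J).image (fun r => (a r).toNat / (n + 1)) := by
    intro x hx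
    obtain ⟨v, hv, rfl⟩ := mem_image.1 hx
    obtain ⟨r, h1, h2, h3, h4⟩ := (mem_filter.1 hv).2
    refine mem_image.2 ⟨r, mem_Icc.2 ⟨h1, h2⟩, ?_⟩
    refine Nat.div_eq_of_lt_le ?_ ?_
    · omega
    · omega
  calc _ = ((univ.filter (fun v : Fin m => Bad (n := n) a J v)).image
        (fun v : Fin m => (v : ℕ))).card := (card_image_of_injective _ Fin.val_injective).symm
    _ ≤ _ := card_le_card h1
    _ ≤ (Finset.Icc 1 J).card := card_image_le
    _ = J := by simp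

theorem unword_comp {n m J : ℕ} {a : ℕ → ℤ} (ha : StrictMono a)
    (f : ℕ → Fin (m * (n + 1)) → Bool) (S : ℕ → Fin m → Ex n) (hf : ∀ j ≤ J, f j = word (S j))
    (v : Fin m) (hv : ¬ Bad (n := n) a J v) :
    unword (comp a f J) v = S (idx a J (((v : ℕ) * (n + 1) : ℕ) : ℤ)) v := by
  refine unword_eq _ _ _ fun j => ?_
  rw [← hf _ (idx_le _ _ _)]
  have hp : ((finProdFinEquiv (v, j) : Fin (m * (n + 1))) : ℕ) = (j : ℕ) + (n + 1) * (v : ℕ) := rfl
  have hj := j.2
  have e1 : (v : ℕ) * (n + 1) = (n + 1) * (v : ℕ) := mul_comm _ _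
  have e2 : ((v : ℕ) + 1) * (n + 1) = (n + 1) * (v : ℕ) + (n + 1) := by ring
  refine comp_eq a f _ _ J (idx_le _ _ _) (fun r h1 h2 => ?_) fun r h1 h2 => ?_
  · have h3 := le_of_idx ha h1 h2
    rw [hp]
    rw [e1] at h3
    push_cast at h3 ⊢
    have : (0 : ℤ) ≤ (j : ℕ) := by positivity
    linarith
  · have h3 := lt_of_idx h1 h2
    have h4 : ¬ a r < ((((v : ℕ) + 1) * (n + 1) : ℕ) : ℤ) := fun h5 => hv ⟨r, by omega, h2, h3, h5⟩
    rw [not_lt] at h4
    refine lt_of_lt_of_le ?_ h4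
    rw [hp, e2]
    exact_mod_cast (by omega : (j : ℕ) + (n + 1) * (v : ℕ) < (n + 1) * (v : ℕ) + (n + 1))

open Classical in
theorem adv_near {g m n J : ℕ} (h : (Fin n → Bool) → Bool) {S S' : Fin m → Ex n}
    (Bd : Finset (Fin m)) (hB : Bd.card ≤ J) (hS : ∀ v, v ∉ Bd → S v = S' v)
    (hm : 2 * g * J ≤ m) (hA : Adv g h S) : Adv (2 * g) h S' := by
  have h1 : errors h S' ≤ errors h S + J := by
    unfold errors
    rw [Nat.card_eq_fintype_card, Fintype.card_subtype, Nat.card_eq_fintype_card,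
      Fintype.card_subtype]
    refine (card_le_card (t := univ.filter (fun i => h (S i).1 ≠ (S i).2) ∪ Bd) ?_).trans
      ((card_union_le _ _).trans (by omega))
    intro v hv
    rw [mem_union]
    by_cases hb : v ∈ Bd
    · exact Or.inr hb
    · left
      rw [mem_filter] at hv ⊢
      rw [hS v hb]
      exact hv
  unfold Adv at hA ⊢
  have h2 : g * errors h S' ≤ g * errors h S + g * J := by
    rw [← Nat.mul_add]
    exact Nat.mul_le_mul_left _ h1
  have e1 : 2 * g * errors h S = 2 * (g * errors h S) := by ring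
  have e2 : 2 * (2 * g) * errors h S' = 4 * (g * errors h S') := by ring
  have e3 : 2 * g * m = 2 * (g * m) := by ring
  have e4 : 2 * g * J = 2 * (g * J) := by ring
  rw [e1] at hA
  rw [e4] at hm
  rw [e2, e3]
  omega

end Pool.Agent.U864.OT
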