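import Mathlib
import Pool.Agent.U864.OT.SampleCuts

/-!
# One-tape machines which read samples: the lower bound
-/

set_option autoImplicit false

open Finset

namespace Pool.Agent.U864.OT

open Pool.Agent.U20.DL (Ex par labelled Adv errors Pr Ks smp few_bad card_ks)

variable {q : ℕ}

theorem core {g n k m : ℕ} (hg : 1 ≤ g) (hC : (256 * g ^ 2) ^ (65 * g) ≤ n.choose k)
    (I : Type) [Fintype I] (hyp : I → (Fin n → Bool) → Bool)
    (hK : (2 * Fintype.card I * n.choose k ^ (4 * g)) ^ (16 * g ^ 2) ≤ 2 ^ m)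
    (hm : 512 * g ^ 3 ≤ m) {μ T l : ℕ} (M : Machine Bool q)
    (hl : T < m / (128 * g ^ 2) * (n + 1) * (l + 1))
    (hno : ∀ S : Fin m → Ex n, Accepts M (List.ofFn (word S)) → ∃ i, Adv g (hyp i) S)
    (U : Finset (Pr n m k)) (hU : ∀ u ∈ U, AcceptsIn M (List.ofFn (word (smp u))) T)
    (hp : Fintype.card (Pr n m k) ≤ 2 ^ μ * U.card) :
    n.choose k ≤
      (2 ^ μ * (m / (128 * g ^ 2) * (n + 1)) * (q + 1) ^ l) ^ (2 ^ 14 * g ^ 3) := by
  classical
  obtain ⟨E, hE⟩ : ∃ E, E = m / (128 * g ^ 2) := ⟨_, rfl⟩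
  rw [← hE] at hl ⊢
  obtain ⟨D, hD⟩ : ∃ D, D = E * (n + 1) := ⟨_, rfl⟩
  rw [← hD] at hl ⊢
  have hg2 : 1 ≤ g ^ 2 := Nat.one_le_pow _ _ hg
  have hD0 : 0 < D := by
    rcases Nat.eq_zero_or_pos D with h | h
    · rw [h] at hl
      omega
    · exact h
  have hE0 : 0 < E := by
    rcases Nat.eq_zero_or_pos E with h | h
    · rw [h, zero_mul] at hD
      omega
    · exact h
  obtain ⟨J, hJ⟩ : ∃ J, J + 1 = 256 * g ^ 2 := ⟨256 * g ^ 2 - 1, by omega⟩
  have hC0 : 1 ≤ n.choose k := le_trans (Nat.one_le_pow _ _ (by omega)) hC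
  have hE1 : 128 * g ^ 2 * E ≤ m := by
    rw [hE]
    exact Nat.mul_div_le _ _
  have hE2 : m < 128 * g ^ 2 * (E + 1) := by
    rw [hE]
    exact Nat.lt_mul_div_succ _ (by omega)
  have hmE : m ≤ (J + 2) * E := by
    have h1 : g ^ 2 ≤ g ^ 2 * E := Nat.le_mul_of_pos_right _ hE0
    have h2 : 128 * g ^ 2 * (E + 1) = 128 * (g ^ 2 * E) + 128 * g ^ 2 := by ring
    have h3 : (J + 2) * E = 256 * (g ^ 2 * E) + E := by
      rw [show J + 2 = 256 * g ^ 2 + 1 by omega]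
      ring
    omega
  -- a computation for every sample in `U`
  have hrun : ∀ u : Pr n m k, ∃ L : List (Fin q × ℤ), u ∈ U → L.length ≤ T ∧
      ∃ t₁, Run M M.start 0 (tape M (List.ofFn (word (smp u)))) L t₁ := by
    intro u
    by_cases hu : u ∈ U
    · obtain ⟨L, t₁, h1, h2⟩ := hU u hu
      exact ⟨L, fun _ => ⟨h1, t₁, h2⟩⟩
    · exact ⟨[], fun h => absurd h hu⟩
  choose L hL using hrun
  -- short crossing sequences
  have hcut : ∀ (u : Pr n m k) (r : ℕ), ∃ d : Fin D, u ∈ U →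
      (cs ((r * D + (d : ℕ) : ℕ) : ℤ) 0 (L u)).length ≤ l := by
    intro u r
    by_cases hu : u ∈ U
    · obtain ⟨hT, t₁, hR⟩ := hL u hu
      by_contra hcon
      push Not at hcon
      have h1 : ∀ d : Fin D, l + 1 ≤ (cs ((r * D + (d : ℕ) : ℕ) : ℤ) 0 (L u)).length :=
        fun d => (hcon d).2
      have hinj : Function.Injective (fun d : Fin D => ((r * D + (d : ℕ) : ℕ) : ℤ)) := by
        intro x y hxy
        have h0 : ((r * D + (x : ℕ) : ℕ) : ℤ) = ((r * D + (y : ℕ) : ℕ) : ℤ) := hxy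
        have : r * D + (x : ℕ) = r * D + (y : ℕ) := by exact_mod_cast h0
        exact Fin.ext (by omega)
      have h2 := sum_cs M (univ.map ⟨fun d : Fin D => ((r * D + (d : ℕ) : ℕ) : ℤ), hinj⟩) hR
      rw [sum_map] at h2
      have h3 : D * (l + 1) ≤
          ∑ d : Fin D, (cs ((r * D + (d : ℕ) : ℕ) : ℤ) 0 (L u)).length := by
        calc D * (l + 1) = ∑ _d : Fin D, (l + 1) := by simp
          _ ≤ _ := sum_le_sum fun d _ => h1 d
      simp only [Function.Embedding.coeFn_mk] at h2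
      omega
    · exact ⟨⟨0, hD0⟩, fun h => absurd h hu⟩
  choose d hd using hcut
  obtain ⟨cls, hcls⟩ : ∃ cls : Pr n m k → (Fin J → Fin D × (Fin l → Option (Fin q))),
      cls = fun (u : Pr n m k) (r : Fin J) => (d u ((r : ℕ) + 1), fun (i : Fin l) =>
        (cs ((((r : ℕ) + 1) * D + (d u ((r : ℕ) + 1) : ℕ) : ℕ) : ℤ) 0 (L u))[(i : ℕ)]?) :=
    ⟨_, rfl⟩
  have : Nonempty (Fin J → Fin D × (Fin l → Option (Fin q))) :=
    ⟨fun _ => (⟨0, hD0⟩, fun _ => none)⟩
  obtain ⟨c₀, hc₀⟩ := Finite.exists_max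
    (fun c : Fin J → Fin D × (Fin l → Option (Fin q)) => (U.filter (fun u => cls u = c)).card)
  obtain ⟨V, hV⟩ : ∃ V, V = U.filter (fun u => cls u = c₀) := ⟨_, rfl⟩
  have hUc : U.card ≤ (D * (q + 1) ^ l) ^ J * V.card := by
    calc U.card = ∑ c, (U.filter (fun u => cls u = c)).card :=
          card_eq_sum_card_fiberwise (fun u _ => mem_coe.2 (mem_univ _))
      _ ≤ ∑ _c : Fin J → Fin D × (Fin l → Option (Fin q)), V.card :=
          sum_le_sum fun c _ => hV ▸ hc₀ c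
      _ = _ := by
          rw [sum_const, card_univ, smul_eq_mul]
          congr 1
          simp
  have hP0 : 0 < Fintype.card (Pr n m k) := by
    rw [Fintype.card_prod, card_ks]
    have : 0 < Fintype.card (Fin m → Fin n → Bool) := Fintype.card_pos
    exact Nat.mul_pos this hC0
  have hV0 : 0 < V.card := by
    rcases Nat.eq_zero_or_pos V.card with h | h
    · rw [h, mul_zero] at hUc
      have : U.card = 0 := by omega
      rw [this] at hp
      omega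
    · exact h
  obtain ⟨u₀, hu₀⟩ := card_pos.1 hV0
  obtain ⟨a, ha⟩ : ∃ a : ℕ → ℤ, a = fun r => ((r * D + (d u₀ r : ℕ) : ℕ) : ℤ) := ⟨_, rfl⟩
  have ha1 : ∀ r, ((r * (E * (n + 1)) : ℕ) : ℤ) ≤ a r := by
    intro r
    rw [ha, ← hD]
    have h0 : r * D ≤ r * D + (d u₀ r : ℕ) := Nat.le_add_right _ _
    change ((r * D : ℕ) : ℤ) ≤ ((r * D + (d u₀ r : ℕ) : ℕ) : ℤ)
    exact_mod_cast h0
  have ha2 : ∀ r, a r < (((r + 1) * (E * (n + 1)) : ℕ) : ℤ) := by
    intro r
    rw [ha, ← hD]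
    have h1 := (d u₀ r).2
    have h2 : (r + 1) * D = r * D + D := by ring
    rw [h2]
    change ((r * D + (d u₀ r : ℕ) : ℕ) : ℤ) < ((r * D + D : ℕ) : ℤ)
    exact_mod_cast (by omega : r * D + (d u₀ r : ℕ) < r * D + D)
  have hmono : StrictMono a := strictMono_nat_of_lt_succ fun r => (ha2 r).trans_le (ha1 (r + 1))
  have hmem : ∀ u ∈ V, u ∈ U ∧ cls u = c₀ := by
    intro u hu
    rw [hV] at hu
    exact mem_filter.1 hu
  have hcls0 : ∀ u ∈ V, ∀ r, 1 ≤ r → r ≤ J →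
      d u r = d u₀ r ∧ cs (a r) 0 (L u) = cs (a r) 0 (L u₀) := by
    intro u hu r h1 h2
    have h3 : cls u ⟨r - 1, by omega⟩ = cls u₀ ⟨r - 1, by omega⟩ := by
      rw [(hmem u hu).2, (hmem u₀ hu₀).2]
    rw [hcls] at h3
    have h4 : r - 1 + 1 = r := by omega
    simp only [h4] at h3
    have h5 : d u r = d u₀ r := congrArg Prod.fst h3
    have h6 := congrArg Prod.snd h3
    refine ⟨h5, ?_⟩
    have h7 := hd u r (hmem u hu).1
    have h8 := hd u₀ r (hmem u₀ hu₀).1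
    simp only at h6
    rw [h5] at h6 h7
    rw [ha]
    apply List.ext_getElem?
    intro i
    by_cases hi : i < l
    · exact congrFun h6 ⟨i, hi⟩
    · rw [List.getElem?_eq_none (h7.trans (not_lt.1 hi)),
        List.getElem?_eq_none (h8.trans (not_lt.1 hi))]
  have ht : 2 * (J + 1) ^ (J + 1) ≤ n.choose k ^ (2 * (2 * g)) := by
    rw [hJ]
    calc 2 * (256 * g ^ 2) ^ (256 * g ^ 2) ≤
        (256 * g ^ 2) ^ 1 * (256 * g ^ 2) ^ (256 * g ^ 2) :=
          Nat.mul_le_mul_right _ (by rw [pow_one]; omega)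
      _ = (256 * g ^ 2) ^ (1 + 256 * g ^ 2) := (pow_add _ _ _).symm
      _ ≤ (256 * g ^ 2) ^ (260 * g ^ 2) := Nat.pow_le_pow_right (by omega) (by omega)
      _ = ((256 * g ^ 2) ^ (65 * g)) ^ (2 * (2 * g)) := by
          rw [← pow_mul]
          congr 1
          ring
      _ ≤ _ := Nat.pow_le_pow_left hC _
  obtain ⟨p, hpdef⟩ : ∃ p : Fin m → Fin (J + 1), p = fun v =>
      ⟨idx a J (((v : ℕ) * (n + 1) : ℕ) : ℤ), Nat.lt_succ_of_le (idx_le _ _ _)⟩ := ⟨_, rfl⟩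
  obtain ⟨B, hB1, hB2⟩ := few_bad (g := 2 * g) (M := 2 * E) (t := J + 1) (n := n) (m := m) (k := k)
    (by omega) I hyp hC0
    (by
      have : 2 * E * (16 * (2 * g) ^ 2) = 128 * g ^ 2 * E := by ring
      omega) ht
    (by
      have : g ≤ g ^ 2 := Nat.le_self_pow (by norm_num) g
      omega)
    (by
      have e1 : 2 * (2 * g) = 4 * g := by ring
      have e2 : 4 * (2 * g) ^ 2 = 16 * g ^ 2 := by ring
      rw [e1, e2]
      exact hK) p
    (by
      intro j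
      rw [hpdef]
      exact part_card hmono ha1 ha2 hmE j)
  have hall : Fintype.piFinset (fun _ : Fin (J + 1) => V) ⊆ B := by
    intro b hb
    rw [Fintype.mem_piFinset] at hb
    obtain ⟨Sj, hSj⟩ : ∃ Sj : ℕ → Pr n m k,
        Sj = fun j => if h : j < J + 1 then b ⟨j, h⟩ else b 0 := ⟨_, rfl⟩
    have hSV : ∀ j, Sj j ∈ V := by
      intro j
      rw [hSj]
      simp only
      split_ifs
      · exact hb _
      · exact hb _
    obtain ⟨K, t₁, hK1, -⟩ := comp_run M a hmono (fun j => word (smp (Sj j)))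
      (fun r => cs (a r) 0 (L u₀)) J (fun j _ => by
        obtain ⟨-, t₁, h1⟩ := hL (Sj j) (hmem _ (hSV j)).1
        exact ⟨L (Sj j), t₁, h1, fun r h2 h3 => (hcls0 _ (hSV j) r h2 h3).2⟩) J le_rfl
    rw [← word_unword (comp a (fun j => word (smp (Sj j))) J)] at hK1
    obtain ⟨i, hi⟩ := hno (unword (comp a (fun j => word (smp (Sj j))) J))
      ⟨K.length, K, t₁, le_rfl, hK1⟩
    refine hB1 b i (adv_near (J := J) (hyp i)
      (univ.filter (fun v : Fin m => Bad (n := n) a J v)) (bad_card a) ?_ ?_ hi)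
    · intro v hv
      have hv' : ¬ Bad (n := n) a J v := fun h => hv (mem_filter.2 ⟨mem_univ _, h⟩)
      rw [unword_comp hmono _ (fun j => smp (Sj j)) (fun j _ => rfl) v hv']
      unfold Pool.Agent.U20.DN.mix
      rw [hSj, hpdef]
      simp only
      rw [dif_pos (Nat.lt_succ_of_le (idx_le _ _ _))]
    · have h1 : 2 * g * J ≤ 2 * g * (256 * g ^ 2) := Nat.mul_le_mul_left _ (by omega)
      have h2 : 2 * g * (256 * g ^ 2) = 512 * g ^ 3 := by ring
      omega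
  have hVB : V.card ^ (J + 1) ≤ B.card := by
    have := card_le_card hall
    rwa [Fintype.card_piFinset_const] at this
  obtain ⟨X, hX⟩ : ∃ X, X = D * (q + 1) ^ l := ⟨_, rfl⟩
  have hX0 : 1 ≤ X := by
    rw [hX]
    exact Nat.mul_pos hD0 (by positivity)
  rw [← hX] at hUc
  have hY : 2 ^ μ * D * (q + 1) ^ l = 2 ^ μ * X := by
    rw [hX]
    ring
  rw [hY]
  have h1 : V.card ^ (J + 1) * n.choose k ^ (4 * g) ≤
      V.card ^ (J + 1) * (2 ^ μ * X ^ J) ^ (J + 1) := by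
    calc V.card ^ (J + 1) * n.choose k ^ (4 * g) ≤ B.card * n.choose k ^ (2 * (2 * g)) := by
          rw [show 2 * (2 * g) = 4 * g by ring]
          exact Nat.mul_le_mul_right _ hVB
      _ ≤ Fintype.card (Pr n m k) ^ (J + 1) := hB2
      _ ≤ (2 ^ μ * (X ^ J * V.card)) ^ (J + 1) :=
          Nat.pow_le_pow_left (hp.trans (Nat.mul_le_mul_left _ hUc)) _
      _ = _ := by ring
  have h2 : n.choose k ^ (4 * g) ≤ (2 ^ μ * X ^ J) ^ (J + 1) :=
    Nat.le_of_mul_le_mul_left h1 (Nat.pow_pos hV0)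
  have h3 : 2 ^ μ * X ^ J ≤ (2 ^ μ * X) ^ (J + 1) := by
    have h4 : 2 ^ μ ≤ 2 ^ μ * X := Nat.le_mul_of_pos_right _ hX0
    have h5 : X ≤ 2 ^ μ * X := Nat.le_mul_of_pos_left _ (by positivity)
    calc 2 ^ μ * X ^ J ≤ (2 ^ μ * X) * (2 ^ μ * X) ^ J :=
          Nat.mul_le_mul h4 (Nat.pow_le_pow_left h5 _)
      _ = _ := by ring
  have h4 : n.choose k ^ (4 * g) ≤ ((2 ^ μ * X) ^ (2 ^ 14 * g ^ 3)) ^ (4 * g) := by
    calc n.choose k ^ (4 * g) ≤ (2 ^ μ * X ^ J) ^ (J + 1) := h2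
      _ ≤ ((2 ^ μ * X) ^ (J + 1)) ^ (J + 1) := Nat.pow_le_pow_left h3 _
      _ = _ := by
          rw [hJ, ← pow_mul, ← pow_mul]
          congr 1
          ring
  exact (Nat.pow_le_pow_iff_left (by omega)).1 h4

end Pool.Agent.U864.OT
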