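import Mathlib
import Pool.Agent.U864.OT.SampleBound

/-!
# One-tape machines which read samples: parities and DNF formulas
-/

set_option autoImplicit false

open Finset

namespace Pool.Agent.U864.OT

open Pool.Agent.U20.DL Pool.Agent.W964.Wd

variable {q : ℕ}

theorem main_tape {g n k m : ℕ} (hg : 1 ≤ g) (hC : (256 * g ^ 2) ^ (65 * g) ≤ n.choose k)
    (H : Finset ((Fin n → Bool) → Bool))
    (hK : (2 * H.card * n.choose k ^ (4 * g)) ^ (16 * g ^ 2) ≤ 2 ^ m)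
    (hm : 512 * g ^ 3 ≤ m) {μ T : ℕ} (M : Machine Bool q)
    (hno : ∀ S : Fin m → Ex n, (∀ h ∈ H, ¬ Adv g h S) → ¬ Accepts M (List.ofFn (word S)))
    (hp : 2 ^ (n * m) * n.choose k ≤ 2 ^ μ *
      Nat.card {u : (Fin m → Fin n → Bool) × {A : Finset (Fin n) // A.card = k} //
        AcceptsIn M (List.ofFn (word (labelled (par u.2.1) u.1))) T}) :
    n.choose k ≤ (2 ^ μ * (m / (128 * g ^ 2) * (n + 1)) *
      (q + 1) ^ (T / (m / (128 * g ^ 2) * (n + 1)))) ^ (2 ^ 14 * g ^ 3) := by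
  classical
  have hg1 : 1 ≤ g ^ 2 := Nat.one_le_pow _ _ hg
  have hg23 : g ^ 2 ≤ g ^ 3 := Nat.pow_le_pow_right hg (by norm_num)
  have hD0 : 0 < m / (128 * g ^ 2) * (n + 1) := by
    refine Nat.mul_pos (Nat.div_pos ?_ ?_) (by omega)
    · omega
    · omega
  refine core hg hC H (fun h => h.1) (by rwa [Fintype.card_coe]) hm M
    (Nat.lt_mul_div_succ T hD0) ?_
    (univ.filter fun u : Pr n m k => AcceptsIn M (List.ofFn (word (smp u))) T)
    (fun u hu => (mem_filter.1 hu).2) ?_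
  · intro S hS
    by_contra hcon
    push Not at hcon
    exact hno S (fun h hh => hcon ⟨h, hh⟩) hS
  · rw [Nat.card_eq_fintype_card, Fintype.card_subtype] at hp
    rw [Fintype.card_prod, card_ks]
    have e : Fintype.card (Fin m → Fin n → Bool) = 2 ^ (n * m) := by
      simp [pow_mul]
    rw [e]
    exact hp

theorem main_tape_dnf {g k s m : ℕ} (hg : 1 ≤ g) (hk : 80 * g ≤ k)
    (hm : 80 * g ^ 3 * (2 ^ k * s + k ^ 2) ≤ m) {μ T : ℕ} (M : Machine Bool q)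
    (hno : ∀ S : Fin m → Ex (2 ^ k), (∀ h, IsDnf s h → ¬ Adv g h S) →
      ¬ Accepts M (List.ofFn (word S)))
    (hp : ∀ f : (Fin (2 ^ k) → Bool) → Bool, IsDnf (2 ^ k) f → 2 ^ (2 ^ k * m) ≤ 2 ^ μ *
      Nat.card {X : Fin m → Fin (2 ^ k) → Bool // AcceptsIn M (List.ofFn (word (labelled f X))) T}) :
    2 ^ (k ^ 2) ≤ (2 ^ μ * (m / (128 * g ^ 2) * (2 ^ k + 1)) *
      (q + 1) ^ (T / (m / (128 * g ^ 2) * (2 ^ k + 1)))) ^ (2 ^ 15 * g ^ 3) := by
  classical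
  obtain ⟨H, hH⟩ : ∃ H : Finset ((Fin (2 ^ k) → Bool) → Bool),
    H = univ.filter (fun h => IsDnf s h) := ⟨_, rfl⟩
  have hHc : H.card ≤ 2 ^ (2 * 2 ^ k * s) := card_dnf Nat.one_le_two_pow s H fun h hh => by
    rw [hH] at hh
    exact (mem_filter.1 hh).2
  have hg2 : 1 ≤ g ^ 2 := Nat.one_le_pow _ _ hg
  have hg23 : g ^ 2 ≤ g ^ 3 := Nat.pow_le_pow_right hg (by norm_num)
  have hk80 : 80 ≤ k := by omega
  have hk1 : 6400 ≤ k ^ 2 := by nlinarith
  have hkg : g ^ 3 * 6400 ≤ g ^ 3 * k ^ 2 := Nat.mul_le_mul_left _ hk1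
  have hmE : 80 * g ^ 3 * (2 ^ k * s + k ^ 2) =
      80 * (g ^ 3 * (2 ^ k * s)) + 80 * (g ^ 3 * k ^ 2) := by ring
  rw [hmE] at hm
  have hcond : (2 * H.card * (2 ^ k).choose k ^ (4 * g)) ^ (16 * g ^ 2) ≤ 2 ^ m := by
    calc (2 * H.card * (2 ^ k).choose k ^ (4 * g)) ^ (16 * g ^ 2) ≤
        (2 ^ 1 * 2 ^ (2 * 2 ^ k * s) * (2 ^ (k * k)) ^ (4 * g)) ^ (16 * g ^ 2) := by
          refine Nat.pow_le_pow_left (Nat.mul_le_mul (Nat.mul_le_mul (by norm_num) hHc)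
            (Nat.pow_le_pow_left (choose_le_sq k) _)) _
      _ = 2 ^ ((1 + 2 * 2 ^ k * s + k * k * (4 * g)) * (16 * g ^ 2)) := by
          rw [← pow_mul 2 (k * k), ← pow_add, ← pow_add, ← pow_mul]
      _ ≤ 2 ^ m := by
          refine Nat.pow_le_pow_right (by norm_num) (le_trans ?_ hm)
          have e1 : (1 + 2 * 2 ^ k * s + k * k * (4 * g)) * (16 * g ^ 2) =
              16 * g ^ 2 + 32 * (g ^ 2 * (2 ^ k * s)) + 64 * (g ^ 3 * k ^ 2) := by ring
          have e2 : g ^ 2 * (2 ^ k * s) ≤ g ^ 3 * (2 ^ k * s) := Nat.mul_le_mul_right _ hg23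
          omega
  have hC : (256 * g ^ 2) ^ (65 * g) ≤ (2 ^ k).choose k :=
    (Nat.pow_le_pow_right (by omega) (by omega)).trans (consts3 hg hk)
  have hρ := main_tape hg hC H hcond (by omega) (μ := μ) (T := T) M
    (fun S hS => hno S fun h hh => hS h (by
      rw [hH, mem_filter]
      exact ⟨mem_univ _, hh⟩)) (by
    have e1 : Nat.card {u : (Fin m → Fin (2 ^ k) → Bool) ×
        {A : Finset (Fin (2 ^ k)) // A.card = k} //
        AcceptsIn M (List.ofFn (word (labelled (par u.2.1) u.1))) T} =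
        ∑ A : {A : Finset (Fin (2 ^ k)) // A.card = k},
          Nat.card {X : Fin m → Fin (2 ^ k) → Bool //
            AcceptsIn M (List.ofFn (word (labelled (par A.1) X))) T} := by
      rw [Nat.card_eq_fintype_card, Fintype.card_subtype, card_filter, Fintype.sum_prod_type,
        sum_comm]
      refine sum_congr rfl fun A _ => ?_
      rw [Nat.card_eq_fintype_card, Fintype.card_subtype, card_filter]
    rw [e1, mul_sum]
    have e3 : ∀ A : {A : Finset (Fin (2 ^ k)) // A.card = k},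
        2 ^ (2 ^ k * m) ≤ 2 ^ μ *
          Nat.card {X : Fin m → Fin (2 ^ k) → Bool //
            AcceptsIn M (List.ofFn (word (labelled (par A.1) X))) T} := by
      intro A
      refine hp _ ?_
      obtain ⟨r, T, h3, h4⟩ := par_dnf (by omega) A.1 A.2
      refine ⟨r, T, h3.trans ?_, h4⟩
      obtain ⟨j, hj⟩ : ∃ j, k = j + 1 := ⟨k - 1, by omega⟩
      rw [hj, Nat.add_sub_cancel, pow_succ]
      have : 1 ≤ 2 ^ j := Nat.one_le_two_pow
      omega
    calc 2 ^ (2 ^ k * m) * (2 ^ k).choose k =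
        ∑ _A : {A : Finset (Fin (2 ^ k)) // A.card = k}, 2 ^ (2 ^ k * m) := by
          rw [sum_const, card_univ, Fintype.card_finset_len, Fintype.card_fin, smul_eq_mul]
          ring
      _ ≤ _ := sum_le_sum fun A _ => e3 A)
  calc 2 ^ (k ^ 2) = 2 ^ (k * k) := by rw [sq]
    _ ≤ (2 ^ k).choose k ^ 2 := pow_le_choose_sq (by omega)
    _ ≤ _ := Nat.pow_le_pow_left hρ 2
    _ = _ := by
        rw [← pow_mul]
        congr 1
        ring

/-- the time -/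
theorem time_bound {a k μ D T e : ℕ} (hD : 0 < D) (h : 2 ^ a ≤ (2 ^ μ * D * (q + 1) ^ (T / D)) ^ e)
    (hs : (2 ^ μ * D) ^ (2 * e) ≤ 2 ^ a) : 2 ^ (a * D) ≤ (q + 1) ^ (2 * e * T) := by
  have h1 : 2 ^ a * 2 ^ a ≤ 2 ^ a * ((q + 1) ^ (T / D)) ^ (2 * e) := by
    calc 2 ^ a * 2 ^ a ≤ (2 ^ μ * D * (q + 1) ^ (T / D)) ^ e *
          (2 ^ μ * D * (q + 1) ^ (T / D)) ^ e := Nat.mul_le_mul h h
      _ = (2 ^ μ * D) ^ (2 * e) * ((q + 1) ^ (T / D)) ^ (2 * e) := by ring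
      _ ≤ _ := Nat.mul_le_mul_right _ hs
  have h2 : 2 ^ a ≤ ((q + 1) ^ (T / D)) ^ (2 * e) := Nat.le_of_mul_le_mul_left h1 (by positivity)
  calc 2 ^ (a * D) = (2 ^ a) ^ D := pow_mul _ _ _
    _ ≤ (((q + 1) ^ (T / D)) ^ (2 * e)) ^ D := Nat.pow_le_pow_left h2 _
    _ = (q + 1) ^ (2 * e * (T / D * D)) := by
        rw [← pow_mul, ← pow_mul]
        congr 1
        ring
    _ ≤ _ := Nat.pow_le_pow_right (by omega) (Nat.mul_le_mul_left _ (Nat.div_mul_le_self _ _))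

end Pool.Agent.U864.OT
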