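import Pool.Agent.U864.OT.Edges

/-!
# Every set of words of length `N` is decided in `N` steps with many states
-/

set_option autoImplicit false

namespace Pool.Agent.U864.OT

open Pool.Agent.TH454.BW Pool.Agent.H607R2.BW

variable {A : Type} [Fintype A]

/-- the words of length at most `N` and their numbers -/
noncomputable def cod (A : Type) [Fintype A] (N : ℕ) :
    {l : List A // l ∈ short A (N + 1)} ≃ Fin (short A (N + 1)).card := (short A (N + 1)).equivFin

/-- the machine which reads the word from left to right and remembers it -/
noncomputable def store (N : ℕ) (R : List A → Prop) : Machine A (short A (N + 1)).card where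
  Γ := Option A
  inp := fun _ a => some a
  out := fun _ => none
  start := cod A N ⟨[], mem_short.2 (by simp)⟩
  acc := {s | ((cod A N).symm s).1.length = N ∧ R ((cod A N).symm s).1}
  step := fun p s g g' s' p' => ∃ a : A, g = some a ∧ g' = g ∧ p' = p + 1 ∧
    ((cod A N).symm s').1 = ((cod A N).symm s).1 ++ [a]

theorem store_tape (N : ℕ) (R : List A → Prop) (w : List A) (i : ℤ) :
    tape (store N R) w i = letter w i := by
  unfold tape
  cases letter w i <;> rfl

theorem store_complete (N : ℕ) (R : List A → Prop) (w : List A) (hw : w.length = N) (hR : R w) :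
    ∀ (n p : ℕ) (s : Fin _), p + n = N → ((cod A N).symm s).1 = w.take p →
      ∃ L, L.length = n ∧ Run (store N R) s (p : ℤ) (tape (store N R) w) L
        (tape (store N R) w) := by
  intro n
  induction n with
  | zero =>
    intro p s hp hs
    refine ⟨[], rfl, .halt _ _ _ ?_⟩
    have : w.take p = w := List.take_of_length_le (by omega)
    rw [this] at hs
    exact ⟨by rw [hs]; exact hw, by rw [hs]; exact hR⟩
  | succ n ih =>
    intro p s hp hs
    have hlt : p < w.length := by omega
    have hmem : w.take (p + 1) ∈ short A (N + 1) := mem_short.2 (by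
      rw [List.length_take]; omega)
    obtain ⟨L, h1, h2⟩ := ih (p + 1) (cod A N ⟨w.take (p + 1), hmem⟩) (by omega)
      (by rw [Equiv.symm_apply_apply])
    refine ⟨(cod A N ⟨w.take (p + 1), hmem⟩, ((p + 1 : ℕ) : ℤ)) :: L,
      by rw [List.length_cons, h1], .move _ _ _ (tape (store N R) w p) _ _ _ _ ?_ ?_ ?_⟩
    · refine ⟨w[p], ?_, rfl, by push_cast; rfl, ?_⟩
      · rw [store_tape]
        unfold letter
        rw [if_pos (by positivity), Int.toNat_natCast, List.getElem?_eq_getElem hlt]
      · rw [Equiv.symm_apply_apply, hs]
        exact (List.take_concat_get' w p hlt).symm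
    · push_cast
      simp
    · rw [Function.update_eq_self]
      exact h2

theorem store_sound (N : ℕ) (R : List A → Prop) (w : List A) {s : Fin _} {p : ℤ}
    {t t₁ : ℤ → (store N R).Γ} {L : List (Fin _ × ℤ)} (h : Run (store N R) s p t L t₁) :
    ∀ n : ℕ, p = n → (∀ i, t i = letter w i) → ((cod A N).symm s).1 = w.take n →
      w.length = N → R w := by
  induction h with
  | halt s p t hs =>
    intro n _ _ h1 hw
    have h2 := hs.1
    have h3 := hs.2
    rw [h1] at h2 h3
    rw [List.length_take] at h2
    rwa [List.take_of_length_le (by omega)] at h3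
  | move s p t g s' p' L t₁ hst hd hr ih =>
    intro n hp ht h1 hw
    obtain ⟨a, e1, e2, e3, e4⟩ := hst
    subst hp
    refine ih (n + 1) (by rw [e3]; push_cast; ring) ?_ ?_ hw
    · rw [e2, Function.update_eq_self]
      exact ht
    · rw [e4, h1]
      have h2 := ht (n : ℤ)
      rw [e1] at h2
      unfold letter at h2
      rw [if_pos (by positivity), Int.toNat_natCast] at h2
      have h3 : w[n]? = some a := h2.symm
      obtain ⟨h4, h5⟩ := List.getElem?_eq_some_iff.1 h3
      rw [← h5]
      exact List.take_concat_get' w n h4

/-- every set of words of length `N` is decided in `N` steps -/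
theorem store_decides (N : ℕ) (R : List A → Prop) (w : List A) (hw : w.length = N) :
    (R w → AcceptsIn (store N R) w N) ∧ (Accepts (store N R) w → R w) := by
  constructor
  · intro hR
    obtain ⟨L, h1, h2⟩ := store_complete N R w hw hR N 0 (store N R).start (by omega) (by
      unfold store
      rw [Equiv.symm_apply_apply]
      simp)
    exact ⟨L, _, h1.le, by exact_mod_cast h2⟩
  · rintro ⟨T, L, t₁, -, h⟩
    refine store_sound N R w h 0 rfl (store_tape N R w) ?_ hw
    unfold store
    rw [Equiv.symm_apply_apply]
    simp

end Pool.Agent.U864.OT
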