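import Pool.Agent.U864.OT.Basic
import Pool.Agent.TH454.BW.Trellis

/-!
# One-tape machines give trellises

A word accepted by a nondeterministic one-tape machine in few steps has an accepting computation
which passes most boundaries seldom. A trellis guesses the crossing sequences at such boundaries
and remembers the letters since the last of them.
-/

set_option autoImplicit false

namespace Pool.Agent.U864.OT

open Pool.Agent.TH454.BW

/-- lists of length less than `n` -/
noncomputable def short (X : Type) [Fintype X] (n : ℕ) : Finset (List X) :=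
  open Classical in
  (Finset.range n).biUnion fun i => Finset.univ.image fun f : Fin i → X => List.ofFn f

theorem mem_short {X : Type} [Fintype X] {n : ℕ} {l : List X} :
    l ∈ short X n ↔ l.length < n := by
  simp only [short, Finset.mem_biUnion, Finset.mem_range, Finset.mem_image, Finset.mem_univ,
    true_and]
  constructor
  · rintro ⟨i, hi, f, rfl⟩
    simpa using hi
  · intro h
    exact ⟨l.length, h, fun i => l.get i, List.ofFn_get l⟩

theorem card_short (X : Type) [Fintype X] (n : ℕ) :
    (short X n).card ≤ ∑ i ∈ Finset.range n, Fintype.card X ^ i := by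
  classical
  unfold short
  refine le_trans Finset.card_biUnion_le (Finset.sum_le_sum fun i _ => ?_)
  refine le_trans (by convert Finset.card_image_le) ?_
  rw [Finset.card_univ, Fintype.card_fun, Fintype.card_fin]

theorem card_short_le (X : Type) [Fintype X] (hX : 2 ≤ Fintype.card X) (n : ℕ) :
    (short X n).card ≤ Fintype.card X ^ n :=
  (card_short X n).trans (Nat.geomSum_lt hX (fun _ hk => Finset.mem_range.1 hk)).le

theorem geom_le (q n : ℕ) : ∑ i ∈ Finset.range (n + 1), q ^ i ≤ (q + 1) ^ n := by
  induction n with
  | zero => simp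
  | succ n ih =>
    rw [Finset.sum_range_succ']
    have h1 : ∑ k ∈ Finset.range (n + 1), q ^ (k + 1) = q * ∑ k ∈ Finset.range (n + 1), q ^ k := by
      rw [Finset.mul_sum]
      exact Finset.sum_congr rfl fun i _ => by ring
    rw [h1, pow_zero]
    have h2 : 1 ≤ (q + 1) ^ n := Nat.one_le_pow _ _ (by omega)
    calc q * ∑ k ∈ Finset.range (n + 1), q ^ k + 1 ≤ q * (q + 1) ^ n + (q + 1) ^ n :=
          Nat.add_le_add (Nat.mul_le_mul_left _ ih) h2
      _ = (q + 1) ^ (n + 1) := by ring

theorem card_short_fin (q n : ℕ) : (short (Fin q) (n + 1)).card ≤ (q + 1) ^ n := by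
  refine (card_short _ _).trans ?_
  rw [Fintype.card_fin]
  exact geom_le q n

variable {A : Type} {q : ℕ}

theorem letter_mix (w v : List A) (a : ℕ) (hw : a ≤ w.length) (i : ℤ) :
    letter (w.take a ++ v.drop a) i = if i < (a : ℤ) then letter w i else letter v i := by
  unfold letter
  by_cases h0 : 0 ≤ i
  · rw [if_pos h0, if_pos h0, if_pos h0]
    lift i to ℕ using h0
    rw [Int.toNat_natCast]
    by_cases h1 : i < a
    · rw [if_pos (by exact_mod_cast h1), List.getElem?_append_left (by
        rw [List.length_take]; omega), List.getElem?_take_of_lt h1]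
    · rw [if_neg (by exact_mod_cast h1), List.getElem?_append_right (by
        rw [List.length_take]; omega), List.length_take, List.getElem?_drop]
      congr 1
      omega
  · rw [if_neg h0, if_neg h0, if_neg h0, ite_self]

theorem tape_mix (M : Machine A q) (w v : List A) (a : ℕ) (hw : a ≤ w.length) :
    tape M (w.take a ++ v.drop a) = mix (a : ℤ) (tape M w) (tape M v) := by
  funext i
  unfold tape mix
  rw [letter_mix w v a hw]
  split_ifs <;> rfl

/-- the final tape satisfies the local conditions `F` given by the word -/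
def Fits (M : Machine A q) (F : ℤ → Option A → M.Γ → Prop) (w : List A) (t : ℤ → M.Γ) : Prop :=
  ∀ i, F i (letter w i) (t i)

theorem fits_mix {M : Machine A q} {F : ℤ → Option A → M.Γ → Prop} {w v : List A}
    {t t' : ℤ → M.Γ} {a : ℕ} (hw : a ≤ w.length) (h : Fits M F w t) (h' : Fits M F v t') :
    Fits M F (w.take a ++ v.drop a) (mix (a : ℤ) t t') := by
  intro i
  rw [letter_mix w v a hw]
  unfold mix
  split_ifs
  · exact h i
  · exact h' i

/-- an accepting computation on a word of length `N` with the crossing sequences `c` at `a` and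
`c'` at `b` (no condition for `none`) and the letters `u` between `a` and `b` -/
def Block (M : Machine A q) (F : ℤ → Option A → M.Γ → Prop) (N a b : ℕ)
    (c c' : Option (List (Fin q))) (u : List A) : Prop :=
  ∃ (v : List A) (L : List (Fin q × ℤ)) (t₁ : ℤ → M.Γ), v.length = N ∧
    Run M M.start 0 (tape M v) L t₁ ∧ Fits M F v t₁ ∧
    (∀ k, c = some k → cs (a : ℤ) 0 L = k) ∧ (∀ k, c' = some k → cs (b : ℤ) 0 L = k) ∧
    (v.drop a).take (b - a) = u

/-- the branch: no cut (`none`) or a cut with the crossing sequence `k` -/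
def next (c : Option (List (Fin q))) (u : List A) (a : A) :
    Option (List (Fin q)) → Option (List (Fin q)) × List A
  | none => (c, u ++ [a])
  | some k => (some k, [])

variable [Fintype A]

open Classical in
/-- the trellis -/
noncomputable def tre (M : Machine A q) (F : ℤ → Option A → M.Γ → Prop) (N B l : ℕ) (p : ℕ) :
    Finset ((Option (List (Fin q)) × List A) × A × (Option (List (Fin q)) × List A)) :=
  ((((short (Fin q) (l + 1)).insertNone ×ˢ short A B) ×ˢ
    ((Finset.univ : Finset A) ×ˢ (short (Fin q) (l + 1)).insertNone)).filter fun z =>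
      z.1.2.length ≤ p ∧ p < N ∧ ∀ k, z.2.2 = some k →
        Block M F N (p - z.1.2.length) (p + 1) z.1.1 (some k) (z.1.2 ++ [z.2.1])).image
    fun z => (z.1, z.2.1, next z.1.1 z.1.2 z.2.1 z.2.2)

theorem card_tre (M : Machine A q) (F : ℤ → Option A → M.Γ → Prop)
    (hA : 2 ≤ Fintype.card A) (N B l p : ℕ) :
    (tre M F N B l p).card ≤ ((q + 1) ^ l + 1) ^ 2 * Fintype.card A ^ (B + 1) := by
  classical
  unfold tre
  refine le_trans (by convert Finset.card_image_le) ?_
  refine le_trans (Finset.card_filter_le _ _) ?_
  rw [Finset.card_product, Finset.card_product, Finset.card_product, Finset.card_insertNone,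
    Finset.card_univ]
  have h1 := card_short_fin q l
  have h2 := card_short_le A hA B
  calc ((short (Fin q) (l + 1)).card + 1) * (short A B).card *
        (Fintype.card A * ((short (Fin q) (l + 1)).card + 1))
      ≤ ((q + 1) ^ l + 1) * Fintype.card A ^ B * (Fintype.card A * ((q + 1) ^ l + 1)) := by
        gcongr
    _ = ((q + 1) ^ l + 1) ^ 2 * Fintype.card A ^ (B + 1) := by ring

theorem mem_tre {M : Machine A q} {F : ℤ → Option A → M.Γ → Prop} {N B l p : ℕ} {c : Option (List (Fin q))} {u : List A} {a : A}
    {s' : Option (List (Fin q)) × List A} :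
    ((c, u), a, s') ∈ tre M F N B l p ↔ (∀ k, c = some k → k.length ≤ l) ∧ u.length < B ∧
      u.length ≤ p ∧ p < N ∧ ∃ c' : Option (List (Fin q)), (∀ k, c' = some k → k.length ≤ l) ∧
        (∀ k, c' = some k → Block M F N (p - u.length) (p + 1) c (some k) (u ++ [a])) ∧
        s' = next c u a c' := by
  classical
  have hO : ∀ o : Option (List (Fin q)), o ∈ (short (Fin q) (l + 1)).insertNone ↔
      ∀ k, o = some k → k.length ≤ l := by
    intro o
    rw [Finset.mem_insertNone]
    refine forall_congr' fun k => ?_
    rw [mem_short, Option.mem_def, Nat.lt_succ_iff]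
  unfold tre
  simp only [Finset.mem_image, Finset.mem_filter, Finset.mem_product, Finset.mem_univ, true_and,
    hO, mem_short, Prod.exists, Prod.mk.injEq]
  constructor
  · rintro ⟨c₁, u₁, a₁, c', ⟨⟨⟨h1, h2⟩, h3⟩, h4, h5, h6⟩, ⟨rfl, rfl⟩, rfl, rfl⟩
    exact ⟨h1, h2, h4, h5, c', h3, h6, rfl⟩
  · rintro ⟨h1, h2, h4, h5, c', h3, h6, rfl⟩
    exact ⟨c, u, a, c', ⟨⟨⟨h1, h2⟩, h3⟩, h4, h5, h6⟩, ⟨rfl, rfl⟩, rfl, rfl⟩

omit [Fintype A] in
/-- what a path from the start tells about the word `v` of the letters read until now -/
def Inv (M : Machine A q) (F : ℤ → Option A → M.Γ → Prop) (N : ℕ) (v : List A)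
    (c : Option (List (Fin q))) (u : List A) : Prop :=
  v.length ≤ N ∧ u.length ≤ v.length ∧ v.drop (v.length - u.length) = u ∧
    (c = none → u.length = v.length) ∧
    ∀ k, c = some k → ∃ (z : List A) (L : List (Fin q × ℤ)) (t₁ : ℤ → M.Γ), z.length = N ∧
      z.take (v.length - u.length) = v.take (v.length - u.length) ∧
      Run M M.start 0 (tape M z) L t₁ ∧ Fits M F z t₁ ∧ cs ((v.length - u.length : ℕ) : ℤ) 0 L = k

omit [Fintype A] in
/-- the crucial step: a block fits to the word read before -/
theorem glue {M : Machine A q} {F : ℤ → Option A → M.Γ → Prop} {N : ℕ} {v x : List A} {c c' : Option (List (Fin q))} {u : List A}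
    (hI : Inv M F N v c u) (_hN : (v ++ x).length ≤ N) (hx : c' = none ∨ x ≠ [])
    (hB : Block M F N (v.length - u.length) (v ++ x).length c c' (u ++ x)) :
    ∃ (z : List A) (L : List (Fin q × ℤ)) (t₁ : ℤ → M.Γ), z.length = N ∧
      z.take (v ++ x).length = v ++ x ∧ Run M M.start 0 (tape M z) L t₁ ∧ Fits M F z t₁ ∧
      ∀ k, c' = some k → cs (((v ++ x).length : ℕ) : ℤ) 0 L = k := by
  obtain ⟨h1, h2, h3, h4, h5⟩ := hI
  obtain ⟨v', L', t', g1, g2, g6, g3, g4, g5⟩ := hB
  have hlen : (v ++ x).length - (v.length - u.length) = (u ++ x).length := by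
    simp only [List.length_append]; omega
  rw [hlen] at g5
  cases c with
  | none =>
    have h6 := h4 rfl
    have h7 : v.length - u.length = 0 := by omega
    have h8 : v = u := by rw [h7] at h3; simpa using h3
    refine ⟨v', L', t', g1, ?_, g2, g6, g4⟩
    rw [h7, List.drop_zero] at g5
    rw [h8]
    exact g5
  | some k =>
    obtain ⟨z, L, t, f1, f2, f3, f5, f4⟩ := h5 k rfl
    obtain ⟨K, e1, e2, e3, e4⟩ := paste M ((v.length - u.length : ℕ) : ℤ) f3 g2
      (f4.trans (g3 k rfl).symm)
    refine ⟨z.take (v.length - u.length) ++ v'.drop (v.length - u.length), K, _, ?_, ?_, ?_,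
      fits_mix (by omega) f5 g6, ?_⟩
    · rw [List.length_append, List.length_take, List.length_drop]
      omega
    · have e5 : (z.take (v.length - u.length)).length = v.length - u.length := by
        rw [List.length_take]; omega
      have e6 : (v ++ x).length = (z.take (v.length - u.length)).length + (u ++ x).length := by
        rw [e5, List.length_append, List.length_append]; omega
      rw [e6, List.take_length_add_append, g5, f2]
      conv_rhs => rw [← List.take_append_drop (v.length - u.length) v, h3]
      rw [List.append_assoc]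
    · rw [tape_mix M z v' _ (by omega)]
      exact e1
    · intro k' hk'
      rw [← g4 k' hk']
      rcases hx with hx | hx
      · rw [hx] at hk'; cases hk'
      · apply e2
        have : 0 < x.length := List.length_pos_iff.2 hx
        rw [List.length_append]
        push_cast
        omega

theorem sound_step {M : Machine A q} {F : ℤ → Option A → M.Γ → Prop} {N B l : ℕ} {v : List A} {c : Option (List (Fin q))}
    {u : List A} {a : A} {s' : Option (List (Fin q)) × List A} (hI : Inv M F N v c u)
    (h : ((c, u), a, s') ∈ tre M F N B l v.length) : Inv M F N (v ++ [a]) s'.1 s'.2 := by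
  rw [mem_tre] at h
  obtain ⟨h1, h2, h3, h4, c', h5, h6, rfl⟩ := h
  have hl : (v ++ [a]).length = v.length + 1 := by simp
  cases c' with
  | none =>
    simp only [next]
    obtain ⟨i1, i2, i3, i4, i5⟩ := hI
    have e1 : (v ++ [a]).length - (u ++ [a]).length = v.length - u.length := by
      simp only [List.length_append, List.length_singleton]; omega
    refine ⟨by omega, by simp only [List.length_append, List.length_singleton]; omega, ?_, ?_, ?_⟩
    · rw [e1, List.drop_append_of_le_length (by omega), i3]
    · intro hc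
      simp only [List.length_append, List.length_singleton]
      have := i4 hc
      omega
    · intro k hk
      obtain ⟨z, L, t, f1, f2, f3, f4⟩ := i5 k hk
      rw [e1]
      refine ⟨z, L, t, f1, ?_, f3, f4⟩
      rw [List.take_append_of_le_length (by omega)]
      exact f2
  | some k =>
    simp only [next]
    have hB := h6 k rfl
    obtain ⟨z, L, t, f1, f2, f3, f5, f4⟩ := glue (x := [a]) hI (by omega) (Or.inr (by simp))
      (by rw [hl]; exact hB)
    refine ⟨by omega, by simp, by simp, by simp, ?_⟩
    intro k' hk'
    injection hk' with hk'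
    subst hk'
    refine ⟨z, L, t, f1, ?_, f3, f5, ?_⟩
    · simp only [List.length_nil, Nat.sub_zero]
      rw [f2, List.take_length]
    · simp only [List.length_nil, Nat.sub_zero]
      exact f4 k rfl

theorem sound_path {M : Machine A q} {F : ℤ → Option A → M.Γ → Prop} {N B l : ℕ} : ∀ (x v : List A)
    (s s' : Option (List (Fin q)) × List A), Inv M F N v s.1 s.2 →
    Path (tre M F N B l) v.length s x s' → Inv M F N (v ++ x) s'.1 s'.2 := by
  intro x
  induction x with
  | nil =>
    intro v s s' hI hP
    have : s = s' := hP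
    subst this
    simpa using hI
  | cons a x ih =>
    intro v s s' hI hP
    obtain ⟨s₁, h1, h2⟩ := hP
    have h3 := sound_step (s' := s₁) hI h1
    have h4 : (v ++ [a]).length = v.length + 1 := by simp
    rw [← h4] at h2
    have h5 := ih (v ++ [a]) s₁ s' h3 h2
    rwa [List.append_assoc, List.singleton_append] at h5

/-- accepting states -/
def fin (M : Machine A q) (F : ℤ → Option A → M.Γ → Prop) (N : ℕ) :
    Set (Option (List (Fin q)) × List A) :=
  {s | Block M F N (N - s.2.length) N s.1 none s.2}

/-- there is an accepting computation of at most `T` steps, and the final tape fits -/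
def Good' (M : Machine A q) (F : ℤ → Option A → M.Γ → Prop) (w : List A) (T : ℕ) : Prop :=
  ∃ (L : List (Fin q × ℤ)) (t₁ : ℤ → M.Γ), L.length ≤ T ∧ Run M M.start 0 (tape M w) L t₁ ∧
    Fits M F w t₁

theorem sound {M : Machine A q} {F : ℤ → Option A → M.Γ → Prop} {N B l : ℕ} {w : List A}
    (hw : w.length = N) (h : ∃ s' ∈ fin M F N, Path (tre M F N B l) 0 (none, []) w s') :
    ∃ T, Good' M F w T := by
  obtain ⟨s', h1, h2⟩ := h
  have h0 : Inv M F N ([] : List A) none [] := by
    refine ⟨by simp, by simp, by simp, by simp, ?_⟩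
    intro k hk
    cases hk
  have h3 := sound_path w [] (none, []) s' h0 h2
  rw [List.nil_append] at h3
  have h1' : Block M F N (N - s'.2.length) N s'.1 none s'.2 := h1
  obtain ⟨z, L, t, f1, f2, f3, f4, -⟩ := glue (x := []) (c' := none) h3
    (by rw [List.append_nil]; exact hw.le) (Or.inl rfl)
    (by rw [List.append_nil, List.append_nil, hw]; exact h1')
  rw [List.append_nil, List.take_of_length_le (by omega)] at f2
  subst f2
  exact ⟨L.length, L, t, le_rfl, f3, f4⟩

section complete

variable (l : ℕ) (L : List (Fin q × ℤ))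

/-- the boundary `b` is passed at most `l` times -/
def Good (b : ℕ) : Prop := 1 ≤ b ∧ (cs (b : ℤ) 0 L).length ≤ l

instance : DecidablePred (Good l L) := fun b => by unfold Good; infer_instance

/-- the last good boundary -/
def last (p : ℕ) : ℕ := Nat.findGreatest (Good l L) p

theorem last_le (p : ℕ) : last l L p ≤ p := Nat.findGreatest_le p

theorem last_succ (p : ℕ) :
    last l L (p + 1) = if Good l L (p + 1) then p + 1 else last l L p :=
  Nat.findGreatest_succ p

theorem last_good (p : ℕ) (h : last l L p ≠ 0) : Good l L (last l L p) :=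
  Nat.findGreatest_of_ne_zero rfl h

theorem last_bad (p b : ℕ) (h1 : last l L p < b) (h2 : b ≤ p) : ¬ Good l L b :=
  Nat.findGreatest_is_greatest h1 h2

/-- the crossing sequence at the last good boundary -/
def lcs (p : ℕ) : Option (List (Fin q)) :=
  if last l L p = 0 then none else some (cs (last l L p : ℤ) 0 L)

/-- the state of the trellis -/
def sta (w : List A) (p : ℕ) : Option (List (Fin q)) × List A :=
  (lcs l L p, (w.drop (last l L p)).take (p - last l L p))

omit [Fintype A] in
theorem last_near {M : Machine A q} {w : List A} {t₁ : ℤ → M.Γ}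
    (hL : Run M M.start 0 (tape M w) L t₁) {T B : ℕ}
    (hT : L.length ≤ T) (hB : T < B * (l + 1)) (p : ℕ) : p - last l L p < B := by
  by_contra hcon
  rw [not_lt] at hcon
  have h1 := sum_cs M ((Finset.Ioc (last l L p) p).image fun b : ℕ => (b : ℤ)) hL
  rw [Finset.sum_image (fun x _ y _ h => by exact_mod_cast h)] at h1
  have h2 : ∑ b ∈ Finset.Ioc (last l L p) p, (l + 1) ≤
      ∑ b ∈ Finset.Ioc (last l L p) p, (cs (b : ℤ) 0 L).length := by
    refine Finset.sum_le_sum fun b hb => ?_
    rw [Finset.mem_Ioc] at hb
    have h3 := last_bad l L p b hb.1 hb.2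
    by_contra h4
    exact h3 ⟨by omega, by omega⟩
  rw [Finset.sum_const, Nat.card_Ioc, smul_eq_mul] at h2
  have h3 : B * (l + 1) ≤ (p - last l L p) * (l + 1) := Nat.mul_le_mul_right _ hcon
  omega

omit [Fintype A] in
theorem sta_length {w : List A} {p : ℕ} (hp : p ≤ w.length) :
    (sta l L w p).2.length = p - last l L p := by
  have := last_le l L p
  simp only [sta, List.length_take, List.length_drop]
  omega

theorem lcs_some {p : ℕ} {k : List (Fin q)} (h : lcs l L p = some k) :
    cs (last l L p : ℤ) 0 L = k ∧ k.length ≤ l := by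
  unfold lcs at h
  split_ifs at h with h0
  injection h with h
  exact ⟨h, h ▸ (last_good l L p h0).2⟩

theorem complete_step {M : Machine A q} {F : ℤ → Option A → M.Γ → Prop} {N B T : ℕ}
    {w : List A} (hw : w.length = N) {t₁ : ℤ → M.Γ}
    (hL : Run M M.start 0 (tape M w) L t₁) (hF : Fits M F w t₁) (hT : L.length ≤ T) (hB : T < B * (l + 1)) {p : ℕ}
    (hp : p < w.length) :
    (sta l L w p, w[p], sta l L w (p + 1)) ∈ tre M F N B l p := by
  have h1 := last_le l L p
  have h2 := sta_length l L (w := w) hp.le
  have h3 := last_near l L hL hT hB p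
  have h4 : ((w.drop (last l L p)).take (p - last l L p)) ++ [w[p]] =
      (w.drop (last l L p)).take (p + 1 - last l L p) := by
    have e1 : p + 1 - last l L p = (p - last l L p) + 1 := by omega
    rw [e1, List.take_add_one]
    congr 1
    rw [List.getElem?_drop, show last l L p + (p - last l L p) = p by omega,
      List.getElem?_eq_getElem hp]
    rfl
  have h5 : sta l L w p = (lcs l L p, (w.drop (last l L p)).take (p - last l L p)) := rfl
  have h2' : ((w.drop (last l L p)).take (p - last l L p)).length = p - last l L p := h2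
  rw [h5, mem_tre]
  refine ⟨fun k hk => (lcs_some l L hk).2, by omega, by omega, by omega, ?_⟩
  by_cases hg : Good l L (p + 1)
  · refine ⟨some (cs ((p + 1 : ℕ) : ℤ) 0 L), ?_, ?_, ?_⟩
    · intro k hk
      injection hk with hk
      subst hk
      exact hg.2
    · intro k hk
      rw [h2', show p - (p - last l L p) = last l L p by omega]
      refine ⟨w, L, t₁, hw, hL, hF, fun k' hk' => (lcs_some l L hk').1, ?_, h4.symm⟩
      intro k' hk'
      injection hk with hk
      injection hk' with hk'
      rw [← hk', ← hk]
    · unfold sta lcs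
      rw [last_succ, if_pos hg, if_neg (by omega)]
      simp [next]
  · refine ⟨none, ?_, ?_, ?_⟩
    · intro k hk; cases hk
    · intro k hk; cases hk
    · unfold sta lcs
      rw [last_succ, if_neg hg]
      simp only [next, h4]

theorem complete_path {M : Machine A q} {F : ℤ → Option A → M.Γ → Prop} {N B T : ℕ}
    {w : List A} (hw : w.length = N) {t₁ : ℤ → M.Γ}
    (hL : Run M M.start 0 (tape M w) L t₁) (hF : Fits M F w t₁) (hT : L.length ≤ T) (hB : T < B * (l + 1)) :
    ∀ (n p : ℕ), p + n = N → Path (tre M F N B l) p (sta l L w p) (w.drop p) (sta l L w N) := by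
  intro n
  induction n with
  | zero =>
    intro p hp
    have : p = N := by omega
    subst this
    rw [← hw, List.drop_length]
    rfl
  | succ n ih =>
    intro p hp
    have hlt : p < w.length := by omega
    rw [List.drop_eq_getElem_cons hlt]
    exact ⟨_, complete_step l L hw hL hF hT hB hlt, ih (p + 1) (by omega)⟩

end complete

theorem complete {M : Machine A q} {F : ℤ → Option A → M.Γ → Prop} {N B l T : ℕ}
    (hB : T < B * (l + 1)) {w : List A} (hw : w.length = N) (h : Good' M F w T) :
    ∃ s' ∈ fin M F N, Path (tre M F N B l) 0 (none, []) w s' := by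
  obtain ⟨L, t₁, hT, hL, hF⟩ := h
  refine ⟨sta l L w N, ?_, ?_⟩
  · show Block M F N (N - (sta l L w N).2.length) N (sta l L w N).1 none (sta l L w N).2
    have h1 := last_le l L N
    rw [sta_length l L hw.ge, show N - (N - last l L N) = last l L N by omega]
    refine ⟨w, L, t₁, hw, hL, hF, fun k' hk' => (lcs_some l L hk').1, ?_, rfl⟩
    intro k hk; cases hk
  · have h1 := complete_path l L hw hL hF hT hB N 0 (by omega)
    have h2 : sta l L w 0 = (none, []) := by
      have h3 : last l L 0 = 0 := Nat.le_zero.1 (last_le l L 0)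
      unfold sta lcs
      rw [h3]
      simp
    rwa [h2, List.drop_zero] at h1

/-- **Machines give trellises**, with local conditions on the final tape. -/
theorem trellis_fits (M : Machine A q) (F : ℤ → Option A → M.Γ → Prop)
    (hA : 2 ≤ Fintype.card A) {N T B l : ℕ} (hB : T < B * (l + 1))
    {R : List A → Prop} (h1 : ∀ w : List A, w.length = N → R w → Good' M F w T)
    (h2 : ∀ (w : List A) (T' : ℕ), w.length = N → Good' M F w T' → R w) :
    ∃ (σ : Type) (Tr : ℕ → Finset (σ × A × σ)) (s₀ : σ) (acc : Set σ),
      (∀ p, (Tr p).card ≤ ((q + 1) ^ l + 1) ^ 2 * Fintype.card A ^ (B + 1)) ∧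
      ∀ w : List A, w.length = N → (R w ↔ ∃ s' ∈ acc, Path Tr 0 s₀ w s') := by
  refine ⟨_, tre M F N B l, (none, []), fin M F N, card_tre M F hA N B l, fun w hw =>
    ⟨fun h => complete hB hw (h1 w hw h), fun h => ?_⟩⟩
  obtain ⟨T', h'⟩ := sound hw h
  exact h2 w T' hw h'

/-- **Machines give trellises.** -/
theorem trellis (M : Machine A q) (hA : 2 ≤ Fintype.card A) {N T B l : ℕ} (hB : T < B * (l + 1))
    {R : List A → Prop} (h1 : ∀ w : List A, w.length = N → R w → AcceptsIn M w T)
    (h2 : ∀ w : List A, w.length = N → Accepts M w → R w) :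
    ∃ (σ : Type) (Tr : ℕ → Finset (σ × A × σ)) (s₀ : σ) (acc : Set σ),
      (∀ p, (Tr p).card ≤ ((q + 1) ^ l + 1) ^ 2 * Fintype.card A ^ (B + 1)) ∧
      ∀ w : List A, w.length = N → (R w ↔ ∃ s' ∈ acc, Path Tr 0 s₀ w s') := by
  refine trellis_fits M (fun _ _ _ => True) hA hB (fun w hw hR => ?_) (fun w T' hw h => ?_)
  · obtain ⟨L, t₁, h3, h4⟩ := h1 w hw hR
    exact ⟨L, t₁, h3, h4, fun _ => trivial⟩
  · obtain ⟨L, t₁, h3, h4, -⟩ := h
    exact h2 w hw ⟨T', L, t₁, h3, h4⟩

end Pool.Agent.U864.OT
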