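import Pool.Agent.U864.OT.Network

/-!
# Unions of sets decided by one-tape machines
-/

set_option autoImplicit false

namespace Pool.Agent.U864.OT

open Pool.Agent.N598.BT

variable {r m : ℕ}

/-- The set `F` of `r`-tuples of strings of `m` bits is decided by a machine with `q` states in the
time `T`, where `T log₂ (q + 1) ≤ δ m²`, for some order of the `r m` bits on the tape. -/
def SmallMachine (δ : ℝ) (F : Set (Fin r → Fin m → Bool)) : Prop :=
  ∃ (q T : ℕ) (M : Machine Bool q) (ord : Fin (r * m) ≃ Fin r × Fin m),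
    DecidesSet M ord T F ∧ (T : ℝ) * Real.logb 2 (q + 1) ≤ δ * (m : ℝ) ^ 2

theorem piece_mono {α : Type} {w w' : ℕ} {F : Set (Fin r → Fin m → α)} (h : Piece w F)
    (hw : w ≤ w') : Piece w' F := by
  obtain ⟨K, i1, W, i2, T, a, h1, h2, h3⟩ := h
  exact ⟨K, i1, W, i2, T, a, h1.trans hw, h2, h3⟩

/-- sets decided by small machines are pieces of small bond dimension -/
theorem small_piece {γ δ : ℝ} (hγ : 0 < γ) (hδ : δ < γ ^ 2 / 8) :
    ∃ m₀ : ℕ, 1 ≤ m₀ ∧ ∀ (r m : ℕ) (F : Set (Fin r → Fin m → Bool)), 1 ≤ r → m₀ ≤ m →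
      SmallMachine δ F → Piece ⌊((2 : ℝ) ^ m) ^ γ⌋₊ F := by
  obtain ⟨m₀, h⟩ := choose_params (r := 1) le_rfl hγ (by simpa using hδ)
  refine ⟨max m₀ 1, le_max_right _ _, fun r m F hr hm hF => ?_⟩
  obtain ⟨q, T, M, ord, h1, h2⟩ := hF
  have hq : 1 ≤ q := Nat.one_le_iff_ne_zero.2 (by rintro rfl; exact M.start.elim0)
  have hm0 := (le_max_left _ _).trans hm
  have hm1 : 1 ≤ m := (le_max_right _ _).trans hm
  obtain ⟨B, l, h3, h4⟩ := h m q T hm0 hq h2
  rw [pow_one] at h4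
  refine piece_mono (piece_of_machine (by simp) (Nat.mul_pos hr hm1) h3 h1) ?_
  rw [Fintype.card_bool]
  exact Nat.le_floor h4

end Pool.Agent.U864.OT
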